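import Pool.Agent.helper70.LE.SpecN
import Pool.Agent.helper59.FI.Base

set_option autoImplicit false

namespace Pool.Agent.LE

open Pool.Agent.helper58.DC Pool.Agent.DI Pool.Agent.GR Pool.Agent.OB Pool.Agent.DR Pool.Agent.FI Pool.Agent.FI3 Pool.Agent.FI4

section

open Classical in
/-- the indicator of a proposition -/
noncomputable def LFM_j (P : Prop) : ℂ := if P then 1 else 0

theorem LFM_j1 {P : Prop} (h : P) : LFM_j P = 1 := by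
  unfold LFM_j
  rw [if_pos h]

theorem LFM_j0 {P : Prop} (h : ¬ P) : LFM_j P = 0 := by
  unfold LFM_j
  rw [if_neg h]

variable {G : Type} [Group G] [Finite G]

theorem LFM_fm [Fintype G] (S : Set G) (f : G → ℂ) : ∑ᶠ x ∈ S, f x = ∑ x, LFM_j (x ∈ S) * f x := by
  rw [finsum_eq_sum_of_fintype]
  refine Finset.sum_congr rfl fun x _ => ?_
  by_cases h : x ∈ S
  · rw [LFM_j1 h]
    simp [h]
  · rw [LFM_j0 h]
    simp [h]

theorem LFM_cnt [Fintype G] (H : Subgroup G) (t : G) : ∑ x, LFM_j (t⁻¹ * x ∈ H) = (Nat.card H : ℂ) := by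
  classical
  rw [← Equiv.sum_comp (Equiv.mulLeft t)]
  have h1 : ∀ x, LFM_j (t⁻¹ * (Equiv.mulLeft t x) ∈ H) = if x ∈ H then 1 else 0 := by
    intro x
    have h2 : t⁻¹ * (Equiv.mulLeft t x) = x := by
      rw [Equiv.coe_mulLeft]
      group
    rw [h2]
    rfl
  rw [Finset.sum_congr rfl fun x _ => h1 x, Finset.sum_boole]
  congr 1
  rw [Nat.card_eq_fintype_card, Fintype.card_subtype]

theorem LFM_ncd [Fintype G] (St : Set G) : ∑ a, LFM_j (a ∈ St) * 1 = (St.ncard : ℂ) := by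
  classical
  have h : ∀ a, LFM_j (a ∈ St) * 1 = if a ∈ St then 1 else 0 := by
    intro a
    rw [mul_one]
    unfold LFM_j
    by_cases h : a ∈ St
    · rw [if_pos h]
    · rw [if_neg h]
  rw [Finset.sum_congr rfl fun a _ => h a, Finset.sum_boole, Set.ncard_eq_toFinset_card']
  congr 2
  ext z
  simp

/-- double counting of the cosets -/
theorem LFM_sum [Fintype G] (L C TQ : Subgroup G) (St : Set G) (h1 : ∀ a ∈ St, ∀ l ∈ L, a * l ∈ St)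
    (h2 : ∀ t ∈ TQ, t ∈ St) (h3 : ∀ a ∈ St, ∃ t ∈ TQ, a⁻¹ * t ∈ L) (h4 : ∀ t ∈ TQ, t ∈ L → t ∈ C)
    (h5 : C ≤ TQ) (h6 : C ≤ L) (f : G → ℂ) (hf : ∀ a, ∀ l ∈ L, f (a * l) = f a) :
    (Nat.card C : ℂ) * ∑ a, LFM_j (a ∈ St) * f a = (Nat.card L : ℂ) * ∑ t, LFM_j (t ∈ TQ) * f t := by
  have hA : (Nat.card C : ℂ) * ∑ a, LFM_j (a ∈ St) * f a =
      ∑ a, ∑ t, LFM_j (a ∈ St) * LFM_j (t ∈ TQ) * LFM_j (a⁻¹ * t ∈ L) * f a := by
    rw [Finset.mul_sum]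
    refine Finset.sum_congr rfl fun a _ => ?_
    by_cases ha : a ∈ St
    · obtain ⟨t₀, ht₀, ht₁⟩ := h3 a ha
      rw [LFM_j1 ha, ← LFM_cnt C t₀, Finset.sum_mul]
      refine Finset.sum_congr rfl fun t _ => ?_
      by_cases hc : t₀⁻¹ * t ∈ C
      · have e1 : t ∈ TQ := by
          have := TQ.mul_mem ht₀ (h5 hc)
          rwa [mul_inv_cancel_left] at this
        have e2 : a⁻¹ * t ∈ L := by
          have := L.mul_mem ht₁ (h6 hc)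
          have e3 : a⁻¹ * t₀ * (t₀⁻¹ * t) = a⁻¹ * t := by group
          rwa [e3] at this
        rw [LFM_j1 hc, LFM_j1 e1, LFM_j1 e2]
        ring
      · have e1 : LFM_j (t ∈ TQ) * LFM_j (a⁻¹ * t ∈ L) = 0 := by
          by_cases e2 : t ∈ TQ
          · by_cases e3 : a⁻¹ * t ∈ L
            · exfalso
              refine hc (h4 _ (TQ.mul_mem (TQ.inv_mem ht₀) e2) ?_)
              have := L.mul_mem (L.inv_mem ht₁) e3
              have e4 : (a⁻¹ * t₀)⁻¹ * (a⁻¹ * t) = t₀⁻¹ * t := by group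
              rwa [e4] at this
            · rw [LFM_j0 e3, mul_zero]
          · rw [LFM_j0 e2, zero_mul]
        rw [LFM_j0 hc, zero_mul, one_mul, e1, zero_mul]
    · rw [LFM_j0 ha]
      simp
  have hB : (Nat.card L : ℂ) * ∑ t, LFM_j (t ∈ TQ) * f t =
      ∑ t, ∑ a, LFM_j (a ∈ St) * LFM_j (t ∈ TQ) * LFM_j (a⁻¹ * t ∈ L) * f a := by
    rw [Finset.mul_sum]
    refine Finset.sum_congr rfl fun t _ => ?_
    by_cases ht : t ∈ TQ
    · rw [LFM_j1 ht, ← LFM_cnt L t, Finset.sum_mul]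
      refine Finset.sum_congr rfl fun a _ => ?_
      by_cases hc : t⁻¹ * a ∈ L
      · have e1 : a ∈ St := by
          have := h1 t (h2 t ht) _ hc
          rwa [mul_inv_cancel_left] at this
        have e2 : a⁻¹ * t ∈ L := by
          have := L.inv_mem hc
          have e3 : (t⁻¹ * a)⁻¹ = a⁻¹ * t := by group
          rwa [e3] at this
        have e4 : f a = f t := by
          have := hf t _ hc
          rwa [mul_inv_cancel_left] at this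
        rw [LFM_j1 hc, LFM_j1 e1, LFM_j1 e2, e4]
        ring
      · have e2 : ¬ a⁻¹ * t ∈ L := by
          intro e3
          refine hc ?_
          have := L.inv_mem e3
          have e4 : (a⁻¹ * t)⁻¹ = t⁻¹ * a := by group
          rwa [e4] at this
        rw [LFM_j0 hc, LFM_j0 e2]
        ring
    · rw [LFM_j0 ht]
      simp
  rw [hA, hB, Finset.sum_comm]

theorem LFM_av [Fintype G] {L N : Subgroup G} (h : L ≤ N) (v : G) :
    ∑ a, LFM_j (a ∈ N) * LFM_j (a⁻¹ * v ∈ L) = LFM_j (v ∈ N) * (Nat.card L : ℂ) := by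
  by_cases hv : v ∈ N
  · rw [LFM_j1 hv, one_mul, ← LFM_cnt L v]
    refine Finset.sum_congr rfl fun a _ => ?_
    by_cases hc : v⁻¹ * a ∈ L
    · have e1 : a ∈ N := by
        have := N.mul_mem hv (h hc)
        rwa [mul_inv_cancel_left] at this
      have e2 : a⁻¹ * v ∈ L := by
        have := L.inv_mem hc
        have e3 : (v⁻¹ * a)⁻¹ = a⁻¹ * v := by group
        rwa [e3] at this
      rw [LFM_j1 hc, LFM_j1 e1, LFM_j1 e2, one_mul]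
    · have e2 : ¬ a⁻¹ * v ∈ L := by
        intro e3
        refine hc ?_
        have := L.inv_mem e3
        have e4 : (a⁻¹ * v)⁻¹ = v⁻¹ * a := by group
        rwa [e4] at this
      rw [LFM_j0 hc, LFM_j0 e2, mul_zero]
  · rw [LFM_j0 hv, zero_mul]
    refine Finset.sum_eq_zero fun a _ => ?_
    by_cases ha : a ∈ N
    · have e2 : ¬ a⁻¹ * v ∈ L := by
        intro e3
        refine hv ?_
        have := N.mul_mem ha (h e3)
        rwa [mul_inv_cancel_left] at this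
      rw [LFM_j0 e2, mul_zero]
    · rw [LFM_j0 ha, zero_mul]

theorem LFM_card (K : Subgroup G) : (Nat.card K : ℂ) ≠ 0 := by
  have : Nat.card K ≠ 0 := Nat.card_pos.ne'
  exact_mod_cast this

theorem LFM_om [Fintype G] (p : ℕ) (L : Subgroup G) (e : G → ℂ) (a y : G) :
    om p L e a y * (Nat.card L : ℂ) = ∑ v, ∑ z, LFM_j (a⁻¹ * v ∈ L) * LFM_j (PReg p v) * LFM_j (y⁻¹ * z ∈ L) *
      e (v * z * v⁻¹ * z⁻¹) := by
  unfold om
  rw [div_mul_cancel₀ _ (LFM_card L), LFM_fm]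
  refine Finset.sum_congr rfl fun v _ => ?_
  rw [LFM_fm, Finset.mul_sum]
  refine Finset.sum_congr rfl fun z _ => ?_
  have h1 : LFM_j (v ∈ {x : G | a⁻¹ * x ∈ L ∧ PReg p x}) = LFM_j (a⁻¹ * v ∈ L) * LFM_j (PReg p v) := by
    by_cases h2 : a⁻¹ * v ∈ L
    · by_cases h3 : PReg p v
      · rw [LFM_j1 h2, LFM_j1 h3, LFM_j1 (show v ∈ {x : G | a⁻¹ * x ∈ L ∧ PReg p x} from ⟨h2, h3⟩), one_mul]
      · rw [LFM_j0 h3, LFM_j0 (show ¬ v ∈ {x : G | a⁻¹ * x ∈ L ∧ PReg p x} from fun h => h3 h.2), mul_zero]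
    · rw [LFM_j0 h2, LFM_j0 (show ¬ v ∈ {x : G | a⁻¹ * x ∈ L ∧ PReg p x} from fun h => h2 h.1), zero_mul]
  rw [h1]
  have h4 : LFM_j (z ∈ {z : G | y⁻¹ * z ∈ L}) = LFM_j (y⁻¹ * z ∈ L) := rfl
  rw [h4]
  ring

/-- the sum over all the cosets -/
theorem LFM_R [Fintype G] (p : ℕ) {L N : Subgroup G} (h : L ≤ N) (e : G → ℂ) :
    ∑ a, ∑ y, LFM_j (a ∈ N) * LFM_j (y ∈ N) * om p L e a y =
      (Nat.card L : ℂ) * ∑ᶠ v ∈ {v : G | v ∈ N ∧ PReg p v}, ∑ᶠ z ∈ (N : Set G), e (v * z * v⁻¹ * z⁻¹) := by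
  refine mul_right_cancel₀ (LFM_card L) ?_
  have h1 : (∑ a, ∑ y, LFM_j (a ∈ N) * LFM_j (y ∈ N) * om p L e a y) * (Nat.card L : ℂ) =
      ∑ a, ∑ y, ∑ v, ∑ z, (LFM_j (a ∈ N) * LFM_j (a⁻¹ * v ∈ L)) * (LFM_j (y ∈ N) * LFM_j (y⁻¹ * z ∈ L)) *
        (LFM_j (PReg p v) * e (v * z * v⁻¹ * z⁻¹)) := by
    rw [Finset.sum_mul]
    refine Finset.sum_congr rfl fun a _ => ?_
    rw [Finset.sum_mul]
    refine Finset.sum_congr rfl fun y _ => ?_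
    rw [mul_assoc, LFM_om, Finset.mul_sum]
    refine Finset.sum_congr rfl fun v _ => ?_
    rw [Finset.mul_sum]
    refine Finset.sum_congr rfl fun z _ => ?_
    ring
  rw [h1]
  have h2 : ∀ f : G → G → G → G → ℂ, ∑ a, ∑ y, ∑ v, ∑ z, f a y v z = ∑ v, ∑ z, ∑ a, ∑ y, f a y v z := by
    intro f
    calc ∑ a, ∑ y, ∑ v, ∑ z, f a y v z = ∑ a, ∑ v, ∑ y, ∑ z, f a y v z :=
          Finset.sum_congr rfl fun a _ => Finset.sum_comm
      _ = ∑ v, ∑ a, ∑ y, ∑ z, f a y v z := Finset.sum_comm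
      _ = ∑ v, ∑ a, ∑ z, ∑ y, f a y v z :=
          Finset.sum_congr rfl fun v _ => Finset.sum_congr rfl fun a _ => Finset.sum_comm
      _ = ∑ v, ∑ z, ∑ a, ∑ y, f a y v z := Finset.sum_congr rfl fun v _ => Finset.sum_comm
  rw [h2]
  have h3 : ∀ v z : G, ∑ a, ∑ y, (LFM_j (a ∈ N) * LFM_j (a⁻¹ * v ∈ L)) * (LFM_j (y ∈ N) * LFM_j (y⁻¹ * z ∈ L)) *
        (LFM_j (PReg p v) * e (v * z * v⁻¹ * z⁻¹)) =
      (LFM_j (v ∈ N) * (Nat.card L : ℂ)) * (LFM_j (z ∈ N) * (Nat.card L : ℂ)) *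
        (LFM_j (PReg p v) * e (v * z * v⁻¹ * z⁻¹)) := by
    intro v z
    rw [← LFM_av h v, ← LFM_av h z, Finset.sum_mul_sum, Finset.sum_mul]
    refine Finset.sum_congr rfl fun a _ => ?_
    rw [Finset.sum_mul]
  rw [Finset.sum_congr rfl fun v _ => Finset.sum_congr rfl fun z _ => h3 v z]
  rw [LFM_fm, Finset.mul_sum, Finset.sum_mul]
  refine Finset.sum_congr rfl fun v _ => ?_
  rw [LFM_fm, Finset.mul_sum, Finset.mul_sum, Finset.sum_mul]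
  refine Finset.sum_congr rfl fun z _ => ?_
  have h1 : LFM_j (v ∈ {v : G | v ∈ N ∧ PReg p v}) = LFM_j (v ∈ N) * LFM_j (PReg p v) := by
    by_cases h2 : v ∈ N
    · by_cases h3 : PReg p v
      · rw [LFM_j1 h2, LFM_j1 h3, LFM_j1 (show v ∈ {v : G | v ∈ N ∧ PReg p v} from ⟨h2, h3⟩), one_mul]
      · rw [LFM_j0 h3, LFM_j0 (show ¬ v ∈ {v : G | v ∈ N ∧ PReg p v} from fun h => h3 h.2), mul_zero]
    · rw [LFM_j0 h2, LFM_j0 (show ¬ v ∈ {v : G | v ∈ N ∧ PReg p v} from fun h => h2 h.1), zero_mul]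
  rw [h1]
  have h4 : LFM_j (z ∈ (N : Set G)) = LFM_j (z ∈ N) := rfl
  rw [h4]
  ring

/-- `om` depends only on the cosets -/
theorem LFM_oml [Fintype G] (p : ℕ) (L : Subgroup G) (e : G → ℂ) (a y l : G) (hl : l ∈ L) :
    om p L e (a * l) y = om p L e a y ∧ om p L e a (y * l) = om p L e a y := by
  have h : ∀ b v : G, LFM_j ((b * l)⁻¹ * v ∈ L) = LFM_j (b⁻¹ * v ∈ L) := by
    intro b v
    have h1 : (b * l)⁻¹ * v = l⁻¹ * (b⁻¹ * v) := by group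
    have h2 : (b * l)⁻¹ * v ∈ L ↔ b⁻¹ * v ∈ L := by
      rw [h1]
      exact L.mul_mem_cancel_left (L.inv_mem hl)
    by_cases h3 : b⁻¹ * v ∈ L
    · rw [LFM_j1 h3, LFM_j1 (h2.2 h3)]
    · rw [LFM_j0 h3, LFM_j0 fun h4 => h3 (h2.1 h4)]
  constructor
  · refine mul_right_cancel₀ (LFM_card L) ?_
    rw [LFM_om, LFM_om]
    refine Finset.sum_congr rfl fun v _ => Finset.sum_congr rfl fun z _ => ?_
    rw [h]
  · refine mul_right_cancel₀ (LFM_card L) ?_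
    rw [LFM_om, LFM_om]
    refine Finset.sum_congr rfl fun v _ => Finset.sum_congr rfl fun z _ => ?_
    rw [h]

theorem LFM_nzcz {Q : Subgroup G} {n : G} (h : n ∈ nz Q) : n ∈ nz (cz Q) := by
  rw [Subgroup.mem_normalizer_iff]
  intro x
  refine ⟨fun hx => cz_conj h hx, fun hx => ?_⟩
  have h1 := cz_conj ((nz Q).inv_mem h) hx
  have h2 : n⁻¹ * (n * x * n⁻¹) * n⁻¹⁻¹ = x := by group
  rwa [h2] at h1

theorem LFM_nz {K : Subgroup G} {a x : G} (ha : a ∈ nz K) : a * x * a⁻¹ ∈ K ↔ x ∈ K :=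
  (Subgroup.mem_normalizer_iff.1 ha x).symm

/-- the commutator modulo `L` -/
theorem LFM_com {L : Subgroup G} {a y v z : G} (ha : a ∈ nz L) (hy : y ∈ nz L) (hv : a⁻¹ * v ∈ L)
    (hz : y⁻¹ * z ∈ L) : v * z * v⁻¹ * z⁻¹ ∈ L ↔ a * y * a⁻¹ * y⁻¹ ∈ L := by
  obtain ⟨l, hl, rfl⟩ : ∃ l ∈ L, v = a * l := ⟨a⁻¹ * v, hv, by group⟩
  obtain ⟨m, hm, rfl⟩ : ∃ m ∈ L, z = y * m := ⟨y⁻¹ * z, hz, by group⟩
  have h1 : a * l * (y * m) * (a * l)⁻¹ * (y * m)⁻¹ = ((a * l * a⁻¹) * ((a * y) * (m * l⁻¹) * (a * y)⁻¹)) *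
      (a * y * a⁻¹ * y⁻¹) * (y * m⁻¹ * y⁻¹) := by group
  rw [h1, L.mul_mem_cancel_right ((LFM_nz hy).2 (L.inv_mem hm)), L.mul_mem_cancel_left]
  exact L.mul_mem ((LFM_nz ha).2 hl) ((LFM_nz ((nz L).mul_mem ha hy)).2 (L.mul_mem hm (L.inv_mem hl)))

theorem LFM_zero1 [Fintype G] (p : ℕ) {L : Subgroup G} {e : G → ℂ} (he : ∀ x, x ∉ L → e x = 0) {a y : G}
    (ha : a ∈ nz L) (hy : y ∈ nz L) (h : ¬ a * y * a⁻¹ * y⁻¹ ∈ L) : om p L e a y = 0 := by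
  refine mul_right_cancel₀ (LFM_card L) ?_
  rw [LFM_om, zero_mul]
  refine Finset.sum_eq_zero fun v _ => Finset.sum_eq_zero fun z _ => ?_
  by_cases hv : a⁻¹ * v ∈ L
  · by_cases hz : y⁻¹ * z ∈ L
    · rw [he _ fun h1 => h ((LFM_com ha hy hv hz).1 h1), mul_zero]
    · rw [LFM_j0 hz, mul_zero, zero_mul]
  · rw [LFM_j0 hv, zero_mul, zero_mul, zero_mul]

end

theorem LFM (hLFN : LFN_stmt) (hHIB : HIB_stmt) (hNS1 : NS1_stmt) (hNS2 : NS2_stmt) (hKKF : KKF_stmt)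
    (hFRA4 : FRA4_stmt) (hNYT : NYT_stmt) (hEXB : EXB_stmt) : LFM_stmt := by
  intro p M hS G _ _ D x θ χ hL Q hQ hRP hor
  classical
  haveI := Fintype.ofFinite G
  obtain ⟨⟨hCT, hCL, hDL, -, hTC⟩, hF2, hF3⟩ := hFRA4 p M hS G D x θ χ hL Q hQ
  have hLN : cz Q ≤ nz Q := cz_le_nz Q
  obtain ⟨ψ₀, hψ₀, hψ₁⟩ := hEXB p M hS G (cz Q) D hL.rt.dfa.pgrp hDL θ (by
    rw [inf_eq_right.2 hCL]
    exact hL.rt.th)
  have hB₀ : ψ₀ ∈ Bl M (cz Q) θ := ⟨hψ₀, hψ₁.symm⟩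
  have hI := (hHIB p M hS G (cz Q) θ).1
  have hH2 := (hHIB p M hS G (cz Q) θ).2.1
  have hH3 := (hHIB p M hS G (cz Q) θ).2.2
  set e := eBl M (cz Q) θ with he
  set St : Set G := {n : G | n ∈ nz Q ∧ ∃ ψ ∈ Bl M (cz Q) θ, cjF n ψ ∈ Bl M (cz Q) θ} with hSt
  have h1 : ∀ a ∈ St, ∀ l ∈ cz Q, a * l ∈ St := by
    rintro a ⟨ha, ψ, hψ, hψ'⟩ l hl
    refine ⟨(nz Q).mul_mem ha (hLN hl), ψ, hψ, ?_⟩
    rw [cjF, funMap_mul, funMap_inner hψ.1 hl]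
    exact hψ'
  have h2 : ∀ t ∈ TT M D θ ⊓ nz Q, t ∈ St := fun t ht =>
    ⟨ht.2, ψ₀, hB₀, hF3 t ht.1 ht.2 ψ₀ hB₀⟩
  have h3 : ∀ a ∈ St, ∃ t ∈ TT M D θ ⊓ nz Q, a⁻¹ * t ∈ cz Q := by
    rintro a ⟨ha, ψ, hψ, hψ'⟩
    obtain ⟨k, hk, hk'⟩ := hF2 a ha ψ hψ hψ'
    refine ⟨k * a, ⟨hk', (nz Q).mul_mem (hLN hk) ha⟩, ?_⟩
    have := cz_conj ((nz Q).inv_mem ha) hk
    have h4 : a⁻¹ * k * a⁻¹⁻¹ = a⁻¹ * (k * a) := by group
    rwa [h4] at this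
  have h4 : ∀ t ∈ TT M D θ ⊓ nz Q, t ∈ cz Q → t ∈ cz D := fun t ht htL => hRP t ht.1 htL
  have h5 : cz D ≤ TT M D θ ⊓ nz Q := le_inf hCT (hCL.trans hLN)
  -- vanishing
  have hz : ∀ a ∈ nz Q, ∀ y ∈ nz Q, (a ∉ St ∨ y ∉ St) → om p (cz Q) e a y = 0 := by
    intro a ha y hy hay
    by_cases hc : a * y * a⁻¹ * y⁻¹ ∈ cz Q
    swap
    · exact LFM_zero1 p hI.idm.sup (LFM_nzcz ha) (LFM_nzcz hy) hc
    by_cases haS : a ∈ St
    · have hyS : y ∉ St := by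
        rcases hay with h | h
        · exact absurd haS h
        · exact h
      have hc' : a⁻¹ * (y * a * y⁻¹) ∈ cz Q := by
        have := cz_conj ((nz Q).inv_mem ha) ((cz Q).inv_mem hc)
        have h6 : a⁻¹ * (a * y * a⁻¹ * y⁻¹)⁻¹ * a⁻¹⁻¹ = a⁻¹ * (y * a * y⁻¹) := by group
        rwa [h6] at this
      exact hNS2 p M hS G (cz Q) e a y hI (hH2 a (LFM_nzcz ha) haS.2) (LFM_nzcz hy) hc'
        (hH3 y (LFM_nzcz hy) fun h => hyS ⟨hy, h⟩).2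
    · rw [((hKKF G (cz Q) a (LFM_nzcz ha)).2.2.2.2.1 p e y (LFM_nzcz hy)).1, LFM_fm]
      have h7 : ∑ v, LFM_j (v ∈ {x : G | a⁻¹ * x ∈ cz Q ∧ PReg p x}) * KK (cz Q) e v (y * v * y⁻¹) = 0 := by
        refine Finset.sum_eq_zero fun v _ => ?_
        by_cases hv : v ∈ {x : G | a⁻¹ * x ∈ cz Q ∧ PReg p x}
        · have hvN : v ∈ nz Q := by
            have := (nz Q).mul_mem ha (hLN hv.1)
            rwa [mul_inv_cancel_left] at this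
          have hvS : v ∉ St := by
            intro h8
            have := h1 v h8 _ ((cz Q).inv_mem hv.1)
            have h9 : v * (a⁻¹ * v)⁻¹ = a := by group
            rw [h9] at this
            exact haS this
          rw [hNS1 G (cz Q) e hI.idm.sup hI.idm.idem hI.cls v (LFM_nzcz hvN)
            (hH3 v (LFM_nzcz hvN) fun h => hvS ⟨hvN, h⟩).1, mul_zero]
        · rw [LFM_j0 hv, zero_mul]
      rw [h7, zero_div]
  -- the sum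
  have hR := LFM_R p hLN e
  have hLFN' := hLFN p M hS G D x θ χ hL Q hQ hor
  rw [← hSt] at hLFN'
  have hS1 : ∑ a, ∑ y, LFM_j (a ∈ nz Q) * LFM_j (y ∈ nz Q) * om p (cz Q) e a y =
      ∑ a, LFM_j (a ∈ St) * ∑ y, LFM_j (y ∈ St) * om p (cz Q) e a y := by
    refine Finset.sum_congr rfl fun a _ => ?_
    rw [Finset.mul_sum]
    refine Finset.sum_congr rfl fun y _ => ?_
    by_cases ha : a ∈ nz Q
    · by_cases hy : y ∈ nz Q
      · rw [LFM_j1 ha, LFM_j1 hy, one_mul, one_mul]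
        by_cases ha' : a ∈ St
        · by_cases hy' : y ∈ St
          · rw [LFM_j1 ha', LFM_j1 hy', one_mul, one_mul]
          · rw [LFM_j0 hy', hz a ha y hy (Or.inr hy')]
            ring
        · rw [LFM_j0 ha', hz a ha y hy (Or.inl ha')]
          ring
      · rw [LFM_j0 hy, LFM_j0 fun h : y ∈ St => hy h.1]
        ring
    · rw [LFM_j0 ha, LFM_j0 fun h : a ∈ St => ha h.1]
      ring
  have hS2 := LFM_sum (cz Q) (cz D) (TT M D θ ⊓ nz Q) St h1 h2 h3 h4 h5 hCL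
    (fun a => ∑ y, LFM_j (y ∈ St) * om p (cz Q) e a y) (by
      intro a l hl
      refine Finset.sum_congr rfl fun y _ => ?_
      rw [(LFM_oml p (cz Q) e a y l hl).1])
  have hS3 : ∀ a, (Nat.card (cz D) : ℂ) * ∑ y, LFM_j (y ∈ St) * om p (cz Q) e a y =
      (Nat.card (cz Q) : ℂ) * ∑ y, LFM_j (y ∈ TT M D θ ⊓ nz Q) * om p (cz Q) e a y := fun a =>
    LFM_sum (cz Q) (cz D) (TT M D θ ⊓ nz Q) St h1 h2 h3 h4 h5 hCL (fun y => om p (cz Q) e a y)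
      fun y l hl => (LFM_oml p (cz Q) e a y l hl).2
  have hS4 := LFM_sum (cz Q) (cz D) (TT M D θ ⊓ nz Q) St h1 h2 h3 h4 h5 hCL (fun _ => 1) fun _ _ _ => rfl
  have hc1 : ∑ a, LFM_j (a ∈ St) * 1 = (St.ncard : ℂ) := by
    exact LFM_ncd St
  have hc2 : ∑ a, LFM_j (a ∈ TT M D θ ⊓ nz Q) * 1 = (Nat.card (TT M D θ ⊓ nz Q : Subgroup G) : ℂ) := by
    exact LFM_ncd ((TT M D θ ⊓ nz Q : Subgroup G) : Set G)
  rw [hc1, hc2] at hS4
  have hS5 : ∑ᶠ a ∈ {a : G | a ∈ TT M D θ ∧ a ∈ nz Q},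
      ∑ᶠ y ∈ {y : G | y ∈ TT M D θ ∧ y ∈ nz Q ∧ a * y * a⁻¹ * y⁻¹ ∈ cz D}, om p (cz Q) e a y =
      ∑ a, LFM_j (a ∈ TT M D θ ⊓ nz Q) * ∑ y, LFM_j (y ∈ TT M D θ ⊓ nz Q) * om p (cz Q) e a y := by
    rw [LFM_fm]
    refine Finset.sum_congr rfl fun a _ => ?_
    by_cases ha : a ∈ TT M D θ ⊓ nz Q
    · rw [LFM_j1 ha, LFM_j1 (show a ∈ {a : G | a ∈ TT M D θ ∧ a ∈ nz Q} from ⟨ha.1, ha.2⟩), one_mul, one_mul,
        LFM_fm]
      refine Finset.sum_congr rfl fun y _ => ?_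
      by_cases hy : y ∈ TT M D θ ⊓ nz Q
      · rw [LFM_j1 hy, one_mul]
        by_cases hc : a * y * a⁻¹ * y⁻¹ ∈ cz D
        · rw [LFM_j1 (show y ∈ {y : G | y ∈ TT M D θ ∧ y ∈ nz Q ∧ a * y * a⁻¹ * y⁻¹ ∈ cz D} from
            ⟨hy.1, hy.2, hc⟩), one_mul]
        · rw [LFM_j0 (show ¬ y ∈ {y : G | y ∈ TT M D θ ∧ y ∈ nz Q ∧ a * y * a⁻¹ * y⁻¹ ∈ cz D} from
            fun h => hc h.2.2), zero_mul]
          refine (LFM_zero1 p hI.idm.sup (LFM_nzcz ha.2) (LFM_nzcz hy.2) fun h => hc ?_).symm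
          exact hRP _ ((TT M D θ).mul_mem ((TT M D θ).mul_mem ((TT M D θ).mul_mem ha.1 hy.1)
            ((TT M D θ).inv_mem ha.1)) ((TT M D θ).inv_mem hy.1)) h
      · rw [LFM_j0 hy, LFM_j0 (show ¬ y ∈ {y : G | y ∈ TT M D θ ∧ y ∈ nz Q ∧ a * y * a⁻¹ * y⁻¹ ∈ cz D} from
            fun h => hy ⟨h.1, h.2.1⟩), zero_mul]
    · rw [LFM_j0 ha, LFM_j0 (show ¬ a ∈ {a : G | a ∈ TT M D θ ∧ a ∈ nz Q} from fun h => ha ⟨h.1, h.2⟩),
        zero_mul, zero_mul]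
  rw [hS5]
  have hS6 : (Nat.card (cz D) : ℂ) * ((Nat.card (cz D) : ℂ) *
      ∑ a, LFM_j (a ∈ St) * ∑ y, LFM_j (y ∈ St) * om p (cz Q) e a y) =
      (Nat.card (cz Q) : ℂ) * ((Nat.card (cz Q) : ℂ) *
      ∑ a, LFM_j (a ∈ TT M D θ ⊓ nz Q) * ∑ y, LFM_j (y ∈ TT M D θ ⊓ nz Q) * om p (cz Q) e a y) := by
    rw [hS2, mul_left_comm]
    congr 1
    rw [Finset.mul_sum, Finset.mul_sum]
    refine Finset.sum_congr rfl fun a _ => ?_
    rw [mul_left_comm, hS3 a]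
    ring
  rw [← hS1, hR] at hS6
  have hLne := LFM_card (cz Q)
  refine mul_left_cancel₀ (mul_ne_zero hLne hLne) ?_
  rw [mul_assoc _ _ (∑ a, LFM_j (a ∈ TT M D θ ⊓ nz Q) * _), ← hS6]
  rw [← hLFN']
  have h8 : (Nat.card (cz D) : ℂ) * ((Nat.card (cz D) : ℂ) * ((Nat.card (cz Q) : ℂ) *
      ((St.ncard : ℂ) * LL p M χ (nz Q)))) = (Nat.card (cz D) : ℂ) * (Nat.card (cz Q) : ℂ) *
      ((Nat.card (cz D) : ℂ) * (St.ncard : ℂ)) * LL p M χ (nz Q) := by ring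
  rw [h8, hS4]
  ring

end Pool.Agent.LE
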