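import Pool.Agent.helper70.LE.SpecN

set_option autoImplicit false

namespace Pool.Agent.LE

open Pool.Agent.helper58.DC Pool.Agent.DI Pool.Agent.GR Pool.Agent.OB Pool.Agent.DR Pool.Agent.FI Pool.Agent.FI3 Pool.Agent.FI4

section

variable {G : Type} [Group G] [Finite G]

open Classical in
theorem MLE_fm [Fintype G] (S : Set G) (f : G → ℂ) : ∑ᶠ x ∈ S, f x = ∑ x, if x ∈ S then f x else 0 := by
  rw [finsum_eq_sum_of_fintype]
  refine Finset.sum_congr rfl fun x _ => ?_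
  by_cases h : x ∈ S
  · simp [h]
  · simp [h]

theorem MLE_preg {p : ℕ} {y t : G} : PReg p (y * t * y⁻¹) ↔ PReg p t := by
  unfold PReg
  have h : orderOf (y * t * y⁻¹) = orderOf t := by
    have h1 : y * t * y⁻¹ = (MulAut.conj y).toMonoidHom t := by simp
    rw [h1]
    exact orderOf_injective _ (MulAut.conj y).injective t
  rw [h]

theorem MLE_nz {K : Subgroup G} {a x : G} (ha : a ∈ nz K) : a * x * a⁻¹ ∈ K ↔ x ∈ K :=
  (Subgroup.mem_normalizer_iff.1 ha x).symm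

theorem MLE_nz' {K : Subgroup G} {a x : G} (ha : a ∈ nz K) : a⁻¹ * x * a ∈ K ↔ x ∈ K := by
  have h := MLE_nz (x := x) ((nz K).inv_mem ha)
  rwa [inv_inv] at h

/-- the coset `a K` is stable under left multiplication by `K` -/
theorem MLE_cl {K : Subgroup G} {a : G} (ha : a ∈ nz K) {k : G} (hk : k ∈ K) (t : G) :
    a⁻¹ * (k * t) ∈ K ↔ a⁻¹ * t ∈ K := by
  have h1 : a⁻¹ * (k * t) = (a⁻¹ * k * a) * (a⁻¹ * t) := by group
  rw [h1]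
  exact K.mul_mem_cancel_left ((MLE_nz' ha).2 hk)

theorem MLE_cr {K : Subgroup G} {a : G} {k : G} (hk : k ∈ K) (t : G) :
    a⁻¹ * (t * k) ∈ K ↔ a⁻¹ * t ∈ K := by
  have h1 : a⁻¹ * (t * k) = (a⁻¹ * t) * k := by group
  rw [h1]
  exact K.mul_mem_cancel_right hk

theorem MLE_cj {K : Subgroup G} {a : G} (ha : a ∈ nz K) {k : G} (hk : k ∈ K) (t : G) :
    a⁻¹ * (k * t * k⁻¹) ∈ K ↔ a⁻¹ * t ∈ K := by
  rw [MLE_cr (K.inv_mem hk), MLE_cl ha hk]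

/-- conjugation by `y` -/
theorem MLE_cy {K : Subgroup G} {a y : G} (hy : y ∈ nz K) (h : a⁻¹ * (y * a * y⁻¹) ∈ K) (t : G) :
    a⁻¹ * (y * t * y⁻¹) ∈ K ↔ a⁻¹ * t ∈ K := by
  have h1 : a⁻¹ * (y * t * y⁻¹) = (a⁻¹ * (y * a * y⁻¹)) * (y * (a⁻¹ * t) * y⁻¹) := by group
  rw [h1, K.mul_mem_cancel_left h]
  exact MLE_nz hy

/-- `∑_{z ∈ K} e z g (z⁻¹ t)` -/
noncomputable def MLE_H (K : Subgroup G) (e g : G → ℂ) (t : G) : ℂ :=
  ∑ᶠ z ∈ (K : Set G), e z * g (z⁻¹ * t)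

theorem MLE_A (hKKF : KKF_stmt) (hKKR : KKR_stmt) {p : ℕ} {M : Ideal (integralClosure ℤ ℂ)}
    (hS : Setup p M) {K : Subgroup G} {e g : G → ℂ} {a : G} (hI : HI M K e) (hN : NY K e a)
    (hg : ∀ k ∈ K, ∀ t, g (k * t * k⁻¹) = g t) {t : G} (ht : a⁻¹ * t ∈ K) (hr : PReg p t) :
    (Nat.card K : ℂ) * MLE_H K e g t =
      ∑ᶠ x' ∈ {x' : G | a⁻¹ * x' ∈ K ∧ PReg p x'}, KK K e t x' * g x' := by
  classical
  haveI := Fintype.ofFinite G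
  set g' : G → ℂ := fun s => if a⁻¹ * s ∈ K then g s else 0 with hg'
  have h6 := (hKKF G K a hN.nor).2.2.2.2.2.1 e g' hI.idm.sup (by
    intro l hl x
    rw [hg']
    simp only [MLE_cj hN.nor hl, hg l hl]) (by
    intro x hx
    rw [hg']
    simp only [if_neg hx]) t ht
  have h1 : cv e g' t = MLE_H K e g t := by
    unfold cv MLE_H
    rw [MLE_fm, finsum_eq_sum_of_fintype]
    refine Finset.sum_congr rfl fun z _ => ?_
    by_cases hz : z ∈ (K : Set G)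
    · rw [if_pos hz, hg']
      have h2 : a⁻¹ * (z⁻¹ * t) ∈ K := (MLE_cl hN.nor (K.inv_mem hz) t).2 ht
      simp only [if_pos h2]
    · rw [if_neg hz, hI.idm.sup z hz, zero_mul]
  rw [h1] at h6
  rw [h6, MLE_fm, MLE_fm]
  refine Finset.sum_congr rfl fun x' _ => ?_
  by_cases h3 : a⁻¹ * x' ∈ K
  · by_cases h4 : PReg p x'
    · simp only [Set.mem_setOf_eq, h3, h4, if_true, and_self, hg']
    · have h5 : KK K e t x' = 0 := hKKR p M hS G K e a hI hN t x' ht h3 ⟨fun _ => h4, fun _ => hr⟩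
      simp only [Set.mem_setOf_eq, h3, h4, if_true, and_false, if_false, h5, zero_mul]
  · simp only [Set.mem_setOf_eq, h3, false_and, if_false]

theorem MLE_card (K : Subgroup G) : (Nat.card K : ℂ) ≠ 0 := by
  have : Nat.card K ≠ 0 := Nat.card_pos.ne'
  exact_mod_cast this

theorem MLE_B (hKKF : KKF_stmt) (hKKR : KKR_stmt) {p : ℕ} {M : Ideal (integralClosure ℤ ℂ)}
    (hS : Setup p M) {K : Subgroup G} {e g : G → ℂ} {a : G} (hI : HI M K e) (hN : NY K e a)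
    (hg : ∀ k ∈ K, ∀ t, g (k * t * k⁻¹) = g t) {F : G → ℂ} (hF : RK p K e a F) :
    ∃ c : ℂ, ∀ t, a⁻¹ * t ∈ K → PReg p t → MLE_H K e g t = F t * c := by
  classical
  haveI := Fintype.ofFinite G
  refine ⟨∑ᶠ x' ∈ {x' : G | a⁻¹ * x' ∈ K ∧ PReg p x'}, (starRingEnd ℂ) (F x') * g x', fun t ht hr => ?_⟩
  have h1 := MLE_A hKKF hKKR hS hI hN hg ht hr
  have h2 : ∑ᶠ x' ∈ {x' : G | a⁻¹ * x' ∈ K ∧ PReg p x'}, KK K e t x' * g x' =
      (Nat.card K : ℂ) * (F t * ∑ᶠ x' ∈ {x' : G | a⁻¹ * x' ∈ K ∧ PReg p x'}, (starRingEnd ℂ) (F x') * g x') := by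
    rw [MLE_fm, MLE_fm, Finset.mul_sum, Finset.mul_sum]
    refine Finset.sum_congr rfl fun x' _ => ?_
    by_cases h : x' ∈ {x' : G | a⁻¹ * x' ∈ K ∧ PReg p x'}
    · rw [if_pos h, if_pos h, hF.1 t x' ht hr h.1 h.2]
      ring
    · rw [if_neg h, if_neg h, mul_zero, mul_zero]
  rw [h2] at h1
  exact mul_left_cancel₀ (MLE_card K) h1

theorem MLE_C (hKKF : KKF_stmt) (hKKR : KKR_stmt) {p : ℕ} {M : Ideal (integralClosure ℤ ℂ)}
    (hS : Setup p M) {K : Subgroup G} {e g : G → ℂ} {a y : G} (hI : HI M K e) (hN : NY K e a)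
    (hg : ∀ k ∈ K, ∀ t, g (k * t * k⁻¹) = g t) {F : G → ℂ} (hF : RK p K e a F) (hy : NY K e y)
    (hay : a⁻¹ * (y * a * y⁻¹) ∈ K) {t : G} (ht : a⁻¹ * t ∈ K) (hr : PReg p t) :
    MLE_H K e g (y * t * y⁻¹) = (starRingEnd ℂ) (om p K e a y) * MLE_H K e g t := by
  obtain ⟨c, hc⟩ := MLE_B hKKF hKKR hS hI hN hg hF
  rw [hc t ht hr, hc _ ((MLE_cy hy.nor hay t).2 ht) (MLE_preg.2 hr), (hF.2.2 y hy hay).2 t ht hr]
  ring

theorem MLE_D (hKKF : KKF_stmt) (hKKR : KKR_stmt) {p : ℕ} {M : Ideal (integralClosure ℤ ℂ)}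
    (hS : Setup p M) {K : Subgroup G} {e g : G → ℂ} {a y : G} (hI : HI M K e) (hN : NY K e a)
    (hg : ∀ k ∈ K, ∀ t, g (k * t * k⁻¹) = g t) (hy : NY K e y)
    (hay : a⁻¹ * (y * a * y⁻¹) ∈ K) (c : ℂ)
    (hc : ∀ s, a⁻¹ * s ∈ K → PReg p s → g (y * s * y⁻¹) = c * g s)
    {t : G} (ht : a⁻¹ * t ∈ K) (hr : PReg p t) :
    MLE_H K e g (y * t * y⁻¹) = c * MLE_H K e g t := by
  classical
  haveI := Fintype.ofFinite G
  refine mul_left_cancel₀ (MLE_card K) ?_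
  rw [mul_left_comm, MLE_A hKKF hKKR hS hI hN hg ht hr,
    MLE_A hKKF hKKR hS hI hN hg ((MLE_cy hy.nor hay t).2 ht) (MLE_preg.2 hr), MLE_fm, MLE_fm, Finset.mul_sum,
    ← (MulAut.conj y).toEquiv.sum_comp]
  refine Finset.sum_congr rfl fun s _ => ?_
  have h0 : (MulAut.conj y).toEquiv s = y * s * y⁻¹ := rfl
  rw [h0]
  by_cases h : s ∈ {x' : G | a⁻¹ * x' ∈ K ∧ PReg p x'}
  · have h' : y * s * y⁻¹ ∈ {x' : G | a⁻¹ * x' ∈ K ∧ PReg p x'} :=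
      ⟨(MLE_cy hy.nor hay s).2 h.1, MLE_preg.2 h.2⟩
    rw [if_pos h, if_pos h', hc s h.1 h.2, (hKKF G K a hN.nor).2.2.2.1 e y hy.nor]
    have h4 : (fun u => e (y * u * y⁻¹)) = e := by
      funext u
      exact hy.inv u
    rw [h4]
    ring
  · have h' : y * s * y⁻¹ ∉ {x' : G | a⁻¹ * x' ∈ K ∧ PReg p x'} := by
      intro h5
      exact h ⟨(MLE_cy hy.nor hay s).1 h5.1, MLE_preg.1 h5.2⟩
    rw [if_neg h, if_neg h', mul_zero]

theorem MLE_cvc {K : Subgroup G} {e g : G → ℂ} (he : ∀ k ∈ K, ∀ t, e (k * t * k⁻¹) = e t)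
    (hg : ∀ k ∈ K, ∀ t, g (k * t * k⁻¹) = g t) : ∀ k ∈ K, ∀ t, cv e g (k * t * k⁻¹) = cv e g t := by
  classical
  haveI := Fintype.ofFinite G
  intro k hk t
  unfold cv
  rw [finsum_eq_sum_of_fintype, finsum_eq_sum_of_fintype, ← (MulAut.conj k).toEquiv.sum_comp]
  refine Finset.sum_congr rfl fun s _ => ?_
  have h0 : (MulAut.conj k).toEquiv s = k * s * k⁻¹ := rfl
  rw [h0, he k hk]
  have h1 : (k * s * k⁻¹)⁻¹ * (k * t * k⁻¹) = k * (s⁻¹ * t) * k⁻¹ := by group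
  rw [h1, hg k hk]

end

theorem MLE (hMLA : MLA_stmt) (hOM1 : OM1_stmt) (hOMR : OMR_stmt) (hKKF : KKF_stmt) (hKKR : KKR_stmt)
    (hHIB : HIB_stmt) (hNYT : NYT_stmt) : MLE_stmt := by
  intro p M hS hp2 G _ _ D x θ χ hL Q hQ hRP a ha haQ y hy hyQ hay
  classical
  haveI := Fintype.ofFinite G
  set D₁ := Cz D a with hD₁
  have hQ'D : Q ⊔ D₁ ≤ D := sup_le hQ inf_le_left
  have hD₁c : ∀ u ∈ D₁, a * u = u * a := by
    intro u hu
    have h1 := (Subgroup.mem_inf.1 hu).2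
    rw [Subgroup.mem_centralizer_iff] at h1
    exact h1 a rfl
  have hD₁m : ∀ u, u ∈ D₁ ↔ u ∈ D ∧ a * u = u * a := by
    intro u
    rw [hD₁, Cz, Subgroup.mem_inf, Subgroup.mem_centralizer_iff]
    simp
  -- `a` normalises `Q'`
  have hsup : ∀ b : G, b ∈ nz Q → b ∈ nz D₁ → b ∈ nz (Q ⊔ D₁) := by
    intro b h1 h2
    have h3 : ∀ b : G, b ∈ nz Q → b ∈ nz D₁ → ∀ z ∈ Q ⊔ D₁, b * z * b⁻¹ ∈ Q ⊔ D₁ := by
      intro b h1 h2 z hz
      have h4 : Q ⊔ D₁ ≤ (Q ⊔ D₁).comap (MulAut.conj b).toMonoidHom := by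
        refine sup_le ?_ ?_
        · intro u hu
          rw [Subgroup.mem_comap]
          exact (le_sup_left : Q ≤ Q ⊔ D₁) ((Subgroup.mem_normalizer_iff.1 h1 u).1 hu)
        · intro u hu
          rw [Subgroup.mem_comap]
          exact (le_sup_right : D₁ ≤ Q ⊔ D₁) ((Subgroup.mem_normalizer_iff.1 h2 u).1 hu)
      exact h4 hz
    rw [Subgroup.mem_normalizer_iff]
    intro z
    refine ⟨fun hz => h3 b h1 h2 z hz, fun hz => ?_⟩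
    have h5 := h3 b⁻¹ ((nz Q).inv_mem h1) ((nz D₁).inv_mem h2) _ hz
    have h6 : b⁻¹ * (b * z * b⁻¹) * b⁻¹⁻¹ = z := by group
    rwa [h6] at h5
  have haD₁ : a ∈ nz D₁ := by
    rw [Subgroup.mem_normalizer_iff]
    intro z
    constructor
    · intro hz
      have h1 : a * z * a⁻¹ = z := by rw [hD₁c z hz]; group
      change a * z * a⁻¹ ∈ D₁
      rw [h1]
      exact hz
    · intro hz
      have hz' : a * z * a⁻¹ ∈ D₁ := hz
      have h1 := hD₁c _ hz'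
      have h2 : a * z = z * a := by
        have h3 : a * z = a⁻¹ * (a * (a * z * a⁻¹)) * a := by group
        rw [h3, h1]
        group
      have h4 : a * z * a⁻¹ = z := by rw [h2]; group
      rwa [h4] at hz'
  have hyD : y ∈ nz D := hy.1
  have hyD₁' : ∀ u ∈ D₁, y * u * y⁻¹ ∈ D₁ := by
    intro u hu
    have h1 : y * u * y⁻¹ ∈ D := (Subgroup.mem_normalizer_iff.1 hyD u).1 ((hD₁m u).1 hu).1
    rw [hD₁m]
    refine ⟨h1, ?_⟩
    have h2 := Subgroup.mem_centralizer_iff.1 hay _ h1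
    -- h2 : y u y⁻¹ * c = c * (y u y⁻¹)
    have h3 := hD₁c u hu
    have h4 : a * (y * u * y⁻¹) =
        (a * y * a⁻¹ * y⁻¹) * (y * (a * u * a⁻¹) * y⁻¹) * (a * y * a⁻¹ * y⁻¹)⁻¹ * a := by group
    have h5 : a * u * a⁻¹ = u := by rw [h3]; group
    rw [h4, h5, ← h2]
    group
  have hyD₁ : y ∈ nz D₁ := Subgroup.mem_normalizer_fintype hyD₁'
  have haQ' : a ∈ nz (Q ⊔ D₁) := hsup a haQ haD₁
  have hyQ' : y ∈ nz (Q ⊔ D₁) := hsup y hyQ hyD₁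
  have hay' : a⁻¹ * (y * a * y⁻¹) ∈ cz D := by
    have h1 := cz_conj ((nz D).inv_mem ha.1) ((cz D).inv_mem hay)
    have h2 : a⁻¹ * (a * y * a⁻¹ * y⁻¹)⁻¹ * a⁻¹⁻¹ = a⁻¹ * (y * a * y⁻¹) := by group
    rwa [h2] at h1
  have hK : cz D ≤ cz (Q ⊔ D₁) := Subgroup.centralizer_le hQ'D
  have hL' : cz D ≤ cz Q := Subgroup.centralizer_le hQ
  have hKL : cz (Q ⊔ D₁) ≤ cz Q := Subgroup.centralizer_le (show (Q : Set G) ≤ (Q ⊔ D₁ : Subgroup G) from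
    (le_sup_left : Q ≤ Q ⊔ D₁))
  have hNa := (hNYT p M hS G D x θ χ hL Q hQ a ha haQ).1
  have hNy := (hNYT p M hS G D x θ χ hL Q hQ y hy hyQ).1
  have hRP' := (hNYT p M hS G D x θ χ hL Q hQ a ha haQ).2.2 hRP (Q ⊔ D₁) hQ'D le_sup_left
  have hNa' := (hNYT p M hS G D x θ χ hL (Q ⊔ D₁) hQ'D a ha haQ').1
  have hNy' := (hNYT p M hS G D x θ χ hL (Q ⊔ D₁) hQ'D y hy hyQ').1
  have hI := (hHIB p M hS G (cz Q) θ).1
  have hI' := (hHIB p M hS G (cz (Q ⊔ D₁)) θ).1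
  obtain ⟨F, hF⟩ := hOMR p M hS G (cz Q) (eBl M (cz Q) θ) a hI hNa
    (hOM1 p M hS hp2 G D x θ χ hL Q hQ hRP a ha haQ)
  obtain ⟨F', hF'⟩ := hOMR p M hS G (cz (Q ⊔ D₁)) (eBl M (cz (Q ⊔ D₁)) θ) a hI' hNa'
    (hOM1 p M hS hp2 G D x θ χ hL (Q ⊔ D₁) hQ'D hRP' a ha haQ')
  obtain ⟨Θ, hΘ1, -, w, hw1, hw2, hw3⟩ := hMLA p M hS hp2 G D x θ χ hL Q hQ hRP a ha haQ
  have hg0 : ∀ t, cv (eBl M (cz Q) θ) Θ t = MLE_H (cz Q) (eBl M (cz Q) θ) Θ t := by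
    intro t
    unfold cv MLE_H
    rw [MLE_fm, finsum_eq_sum_of_fintype]
    refine Finset.sum_congr rfl fun z _ => ?_
    by_cases hz : z ∈ ((cz Q : Subgroup G) : Set G)
    · rw [if_pos hz]
    · rw [if_neg hz, hI.idm.sup z hz, zero_mul]
  have hgc := MLE_cvc hI.cls hΘ1
  have h1 : ∀ s, a⁻¹ * s ∈ cz (Q ⊔ D₁) → PReg p s → cv (eBl M (cz Q) θ) Θ (y * s * y⁻¹) =
      (starRingEnd ℂ) (om p (cz Q) (eBl M (cz Q) θ) a y) * cv (eBl M (cz Q) θ) Θ s := by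
    intro s hs hr
    rw [hg0, hg0]
    exact MLE_C hKKF hKKR hS hI hNa hΘ1 hF hNy (hL' hay') (hKL hs) hr
  have h2 := MLE_D hKKF hKKR hS hI' hNa' (fun k hk t => hgc k (hKL hk) t) hNy' (hK hay') _ h1 hw1 hw2
  have h3 := MLE_C hKKF hKKR hS hI' hNa' (fun k hk t => hgc k (hKL hk) t) hF' hNy' (hK hay') hw1 hw2
  rw [h2] at h3
  have h4 := mul_right_cancel₀ hw3 h3
  exact (starRingEnd ℂ).injective h4

end Pool.Agent.LE
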