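import Mathlib
import Pool.Agent.helper70.LE.Defs
import Pool.Agent.helper59.FI4.SpecP4
import Pool.Agent.helper95.FI4.SpecB
import Pool.Agent.helper58.FI4.SpecC
import Pool.Agent.helper1.FI3.SpecH

/-!
# Project LE (MP_baa4d7_al), block BOUND-L: `l(B) ≤ 4 n #{u ∈ D | o(u) ≤ 4 p n}`

Page: `/team-store/LE_baa4d7_helper70.md`, section 4. OUTPUT: `BDL_stmt` of `helper70/LE/Defs`. `X` = the characters of the block with `ψ (g ^ m) = ψ g`, `m ≡ 1 + p` modulo `|G|_p`, `m ≡ 1` modulo `|G|_p'` (`Gm2`). CNL: `l(B) ≤ |X|`.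
`g ψ u = ε u * dd ψ u` on the regular elements `R` of `D`, `0` elsewhere. PIN: `∑_u g ψ u * conj (F u) ∈ |D| ℤ` for every integer combination `F` of characters of `D` which vanishes off `R`. DEC (pure Fourier analysis on `D`): `|X| ≤ 4 n #{u | o(u) ≤ 4 p n}`.

ROWS: one file `Pool/Agent/<seat>/LE/XXX.lean`, `import Pool.Agent.helper83.LE.SpecB`, `set_option autoImplicit false`, `namespace Pool.Agent.LE`, the `open` line below, auxiliary lemmas prefixed `XXX_`, no sorry, no straight double quotes in the file, no `convert`, no `congr!`.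
The rows named in the docstring are hypotheses (exact line in the lock note); proved rows of FI, FI3, FI4, GR, DI may be added as further hypotheses at the end (tell helper83).
Basic lemmas on `lv`: `helper40/FI/Basic.lean` (imported): `lv_one lv_mul lv_inv lv_pow lv_hone lv_hmul lv_hinv lv_inj norm_lv star_lv lv_int sum_lv_lv`.
-/

set_option autoImplicit false

namespace Pool.Agent.LE

open Pool.Agent.helper58.DC Pool.Agent.DI Pool.Agent.GR Pool.Agent.OB Pool.Agent.DR Pool.Agent.FI Pool.Agent.FI3 Pool.Agent.FI4 Pool.Agent.FI4C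

/-! ## 1. Fourier analysis on a finite abelian group -/

/-- the Fourier coefficient `|D|⁻¹ ∑ g(u) conj l(u)` -/
noncomputable def fh {D : Type} [CommGroup D] [Fintype D] (g : D → ℂ) (l : D →* ℂˣ) : ℂ :=
  (∑ u, g u * (starRingEnd ℂ) (lv l u)) / Nat.card D

/-- **FOU** (short-medium; pure). Parseval, inversion, shift. Proof: `∑_u lv l u * conj (lv l' u) = |D|` if `l = l'`, `0` otherwise (`sum_lv_lv`, `star_lv`). There are `|D|` characters (Mathlib: `CommGroup.card_monoidHom_of_hasEnoughRootsOfUnity` or `CommGroup.monoidHom_mulEquiv_of_hasEnoughRootsOfUnity`;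
grep `card` in `helper40/FI`), so the square matrix `(lv l u)` satisfies `A Aᴴ = |D|`, hence `Aᴴ A = |D|`: `∑_l lv l u * conj (lv l v) = |D|` if `u = v`, `0` otherwise (or: for `w = u v⁻¹ ≠ 1` there is `l₀` with `l₀ w ≠ 1`, and `∑_l lv l w = lv l₀ w ∑_l lv l w`).
So `g u = ∑_l fh g l * lv l u` (inversion), and `∑_l ‖fh g l‖² = |D|⁻² ∑_(u,v) g u conj (g v) ∑_l conj (lv l u) lv l v = |D|⁻¹ ∑ ‖g u‖²`. Shift: `lv (l * w) = lv l * lv w`. -/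
def FOU_stmt : Prop :=
  ∀ (D : Type) [CommGroup D] [Fintype D] [Fintype (D →* ℂˣ)] (g : D → ℂ),
    (∑ l : D →* ℂˣ, ‖fh g l‖ ^ 2 = (∑ u, ‖g u‖ ^ 2) / Nat.card D) ∧ ((∀ l, fh g l = 0) → ∀ u, g u = 0) ∧
    ∀ w l : D →* ℂˣ, fh (fun u => g u * (starRingEnd ℂ) (lv w u)) l = fh g (l * w)

/-- **PER** (short-medium; Mathlib only). The characters which are trivial on `C`. Proof: they correspond to the characters of the finite abelian group `D ⧸ C` (`QuotientGroup.lift`, `QuotientGroup.mk'`; `MonoidHom` composition is injective), which has `C.index` characters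
(`CommGroup.card_monoidHom_of_hasEnoughRootsOfUnity`; `ℂ` has enough roots of unity). For `u ∉ C` the class of `u` is not `1`, and some character is not `1` there (`CommGroup.exists_apply_ne_one_of_hasEnoughRootsOfUnity`). -/
def PER_stmt : Prop :=
  ∀ (D : Type) [CommGroup D] [Finite D] (C : Subgroup D),
    Nat.card {w : D →* ℂˣ // ∀ u ∈ C, w u = 1} = C.index ∧
    ∀ u, u ∉ C → ∃ w : D →* ℂˣ, (∀ v ∈ C, w v = 1) ∧ w u ≠ 1

/-- **DUA** (short; Mathlib only). A finite abelian group is isomorphic to its dual: `CommGroup.monoidHom_mulEquiv_of_hasEnoughRootsOfUnity`; isomorphisms preserve orders (`MulEquiv.orderOf_eq`, `Nat.card_congr`, `Equiv.subtypeEquiv`). -/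
def DUA_stmt : Prop :=
  ∀ (D : Type) [CommGroup D] [Finite D] (B : ℕ),
    Nat.card {l : D →* ℂˣ // orderOf l ≤ B} = Nat.card {u : D // orderOf u ≤ B}

/-- **DBE** (short; pure). The dual Bessel inequality. Proof: (2) `a = Pi.single χ 1` (or an `if`). (1) fix `l`, `a χ = conj (fh (g χ) l)`, `S = ∑ ‖fh (g χ) l‖² = ∑_χ a χ * fh (g χ) l = |D|⁻¹ ∑_u (∑_χ a χ * g χ u) * conj (lv l u)`, so by Cauchy-Schwarz (`‖lv l u‖ = 1`)
`|D|² S² ≤ |D| ∑_u ‖∑_χ a χ * g χ u‖² ≤ |D| K |D| S`, hence `S² ≤ K S` and `S ≤ K`. -/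
def DBE_stmt : Prop :=
  ∀ (D : Type) [CommGroup D] [Fintype D] (X : Type) [Fintype X] (g : X → D → ℂ) (K : ℝ), 0 ≤ K →
    (∀ a : X → ℂ, ∑ u, ‖∑ χ, a χ * g χ u‖ ^ 2 ≤ K * Nat.card D * ∑ χ, ‖a χ‖ ^ 2) →
    (∀ l : D →* ℂˣ, ∑ χ, ‖fh (g χ) l‖ ^ 2 ≤ K) ∧ ∀ χ, ∑ u, ‖g χ u‖ ^ 2 ≤ K * Nat.card D

/-- **AVE** (short-medium; Mathlib only). An average. Proof: choose `i₀ ∈ S`. For fixed values `w i`, `i ≠ i₀`, the sum over `w i₀ ∈ P i₀` is a sum of `f` over distinct elements of `A`, so at most `∑ x, f x =: H`. There are `∏_(i ≠ i₀) |P i| = |W| / |P i₀| ≤ |W| / q` choices for the others.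
Formally: `∑_(w ∈ W) F w ≤ ∑_(w ∈ W) (1 / |P i₀|) H`, because both sides can be summed over the fibres of `w ↦ Function.update w i₀ 1` (or use `Fintype.piFinset` with `Fin.insertNthEquiv` / `Equiv.piFinSuccAbove`, `Finset.sum_nbij`). -/
def AVE_stmt : Prop :=
  ∀ (A : Type) [CommGroup A] [Fintype A] [DecidableEq A] (N : ℕ) (P : Fin N → Finset A) (q : ℝ) (f : A → ℝ) (l : A)
    (S : Finset (Fin N)), (∀ x, 0 ≤ f x) → 0 < q → (∀ i, q ≤ (P i).card) → S.Nonempty →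
    ∑ w ∈ Fintype.piFinset P, f (l * ∏ i ∈ S, w i) ≤ ((Fintype.piFinset P).card : ℝ) / q * ∑ x, f x

/-- **DIS** (medium; pure; from AVE). Proof. (1) CLAIM: `‖h l‖ < 2^(-N)` for all `l`. `N = 0`: clear. `N ≥ 1`: `W = Fintype.piFinset P` is not empty (`1 ≤ |P i|`); `q` = the least `|P i|`, `q > 16 ^ N n`. For `S ≠ ∅`: `∑_(w ∈ W) ‖h (l w_S)‖ ≤ (|W| ∑_w ‖h (l w_S)‖²)^(1/2) ≤ |W| (n / q)^(1/2) < |W| 4^(-N)`
(Cauchy-Schwarz, AVE for `f x = ‖h x‖²`). So `∑_w ∑_(S ≠ ∅) ‖h (l w_S)‖ < |W| 2^N 4^(-N) = |W| 2^(-N)` and some `w ∈ W` has `T = ∑_(S ≠ ∅) ‖h (l w_S)‖ < 2^(-N)`. The integer `m` of the hypothesis for `l`, `w` satisfies `‖m - h l‖ ≤ T`, so `|m| < 1/2 + 2^(-N) ≤ 1`, `m = 0` and `‖h l‖ ≤ T`.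
(2) For all `w`, `l` the sum has absolute value `< 2^N 2^(-N) = 1` and it is an integer, so it is `0`. -/
def DIS_stmt : Prop :=
  ∀ (A : Type) [CommGroup A] [Fintype A] [DecidableEq A] (N n : ℕ) (P : Fin N → Finset A) (h : A → ℂ), 1 ≤ n →
    (∀ i, 16 ^ N * n < (P i).card) → ∑ x, ‖h x‖ ^ 2 ≤ n →
    (∀ w : Fin N → A, (∀ i, w i ∈ P i) → ∀ l, ∃ m : ℤ, ∑ S : Finset (Fin N), (-1 : ℂ) ^ S.card * h (l * ∏ i ∈ S, w i) = m) →
    (∀ x, ‖h x‖ < 1 / 2) →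
    ∀ w : Fin N → A, (∀ i, w i ∈ P i) → ∀ l, ∑ S : Finset (Fin N), (-1 : ℂ) ^ S.card * h (l * ∏ i ∈ S, w i) = 0

/-- **BIG** (medium; pure; from FOU, PER, DIS). Some Fourier coefficient is large. Proof: suppose all `‖fh g l‖ < 1/2`. `h = fh g`, `∑ ‖h‖² ≤ n` (FOU). `P i` = the finset of the `w` with `w = 1` on `C i`, `|P i| = (C i).index` (PER). `∏_i (1 - lv (w i) u) = ∑_S (-1)^|S| lv (∏_(i ∈ S) w i) u`
(`Finset.prod_one_sub..`/`Finset.prod_add`; `Finset.powerset univ = univ`), so the hypothesis divided by `|D|` says that `∑_S (-1)^|S| h (l * ∏_(i ∈ S) w i) = m` is an integer (FOU (3) or directly). DIS: it is `0` for all `l`, `w`. So all Fourier coefficients of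
`u ↦ g u * conj (∏_i (1 - lv (w i) u))` are `0`, and `g u * conj (∏_i (1 - lv (w i) u)) = 0` (FOU (2)). Let `g u ≠ 0`; `u ∉ C i` for all `i`; choose `w i` with `w i = 1` on `C i`, `w i u ≠ 1` (PER): a contradiction. -/
def BIG_stmt : Prop :=
  ∀ (D : Type) [CommGroup D] [Fintype D] (N n : ℕ) (C : Fin N → Subgroup D) (g : D → ℂ), 1 ≤ n →
    (∀ i, 16 ^ N * n < (C i).index) → (∀ u, (∃ i, u ∈ C i) → g u = 0) → ∑ u, ‖g u‖ ^ 2 ≤ n * Nat.card D →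
    (∀ (l : D →* ℂˣ) (w : Fin N → (D →* ℂˣ)), (∀ i, ∀ u ∈ C i, w i u = 1) →
      ∃ m : ℤ, ∑ u, g u * (starRingEnd ℂ) (lv l u * ∏ i, (1 - lv (w i) u)) = Nat.card D * m) →
    (∃ u, g u ≠ 0) → ∃ l : D →* ℂˣ, 1 / 2 ≤ ‖fh g l‖

/-- **ORB** (short-medium; pure; from FOU). The order of `l`. Proof: let `s ≡ 1` modulo `p`; `s` is prime to `|D|` (a power of `p`), `u ↦ u ^ s` is a permutation of `D` (`powCoprime`), so `|D| fh g l = ∑_u g (u ^ s) conj (lv l (u ^ s)) = ∑_u g u conj (lv (l ^ s) u) = |D| fh g (l ^ s)`.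
The elements `l ^ (1 + p j)`, `j < orderOf (l ^ p) =: k`, are distinct, each has `‖fh g ·‖² ≥ 1/4`, and `∑_l ‖fh g l‖² ≤ n` (FOU): `k ≤ 4 n`. `l ^ (p k) = 1`: `orderOf l ≤ p k` (`k > 0`: finite group). -/
def ORB_stmt : Prop :=
  ∀ (p : ℕ), p.Prime → ∀ (D : Type) [CommGroup D] [Fintype D], IsPGroup p D → ∀ (n : ℕ) (g : D → ℂ),
    (∀ (u : D) (s : ℕ), s ≡ 1 [MOD p] → g (u ^ s) = g u) → ∑ u, ‖g u‖ ^ 2 ≤ n * Nat.card D →
    ∀ l : D →* ℂˣ, 1 / 2 ≤ ‖fh g l‖ → orderOf l ≤ 4 * p * n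

/-- **DEC** (short-medium; pure; from DBE, BIG, ORB, DUA). Proof: DBE with `K = n`. For every `χ` choose `l χ` with `‖fh (g χ) (l χ)‖ ≥ 1/2` (BIG); `orderOf (l χ) ≤ 4 p n` (ORB). The fibres of `χ ↦ l χ` have at most `4 n` elements: `∑_χ ‖fh (g χ) l‖² ≤ n` (DBE), each element of the fibre over `l`
contributes at least `1/4`. So `|X| ≤ 4 n #{l | orderOf l ≤ 4 p n}` (`Finset.card_le_mul_card_image`), DUA. -/
def DEC_stmt : Prop :=
  ∀ (p : ℕ), p.Prime → ∀ (D : Type) [CommGroup D] [Fintype D], IsPGroup p D → ∀ (X : Type) [Fintype X] (N n : ℕ)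
    (C : Fin N → Subgroup D) (g : X → D → ℂ), 1 ≤ n → (∀ i, 16 ^ N * n < (C i).index) →
    (∀ χ u, (∃ i, u ∈ C i) → g χ u = 0) →
    (∀ χ (l : D →* ℂˣ) (w : Fin N → (D →* ℂˣ)), (∀ i, ∀ u ∈ C i, w i u = 1) →
      ∃ m : ℤ, ∑ u, g χ u * (starRingEnd ℂ) (lv l u * ∏ i, (1 - lv (w i) u)) = Nat.card D * m) →
    (∀ a : X → ℂ, ∑ u, ‖∑ χ, a χ * g χ u‖ ^ 2 ≤ n * Nat.card D * ∑ χ, ‖a χ‖ ^ 2) →
    (∀ χ, ∃ u, g χ u ≠ 0) → (∀ χ (u : D) (s : ℕ), s ≡ 1 [MOD p] → g χ (u ^ s) = g χ u) →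
    Fintype.card X ≤ 4 * n * Nat.card {u : D // orderOf u ≤ 4 * p * n}

/-! ## 2. Integrality (row PIN and its parts; ports of LNU, LEP, LIA, LRA, LIN of block LA of FI) -/

/-- The data. -/
structure PD (p : ℕ) (M : Ideal (integralClosure ℤ ℂ)) {D : Type} [CommGroup D] [Fintype D] {X : Type} [Fintype X]
    (R : Set D) (I : Subgroup (MulAut D)) (β d : X → D → ℂ) (n : D → ℤ) : Prop where
  set : Setup p M
  odd : p ≠ 2
  pg : IsPGroup p D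
  cop : ¬ p ∣ Nat.card I
  fr : ∀ t ∈ I, ∀ u ∈ R, t u = u → t = 1
  lg : ∀ χ, LGC (β χ)
  inv : ∀ χ, ∀ t ∈ I, ∀ u, β χ (t u) = β χ u
  nd : ∀ χ, ∀ u ∈ R, β χ u = (n u : ℂ) * d χ u
  np : ∀ u ∈ R, ¬ (p : ℤ) ∣ n u
  ort : ∀ u ∈ R, ∀ a, (∀ t ∈ I, t u ≠ a) → ∑ χ, β χ a * (starRingEnd ℂ) (β χ u) = 0
  nrm : ∀ u ∈ R, ∑ χ, d χ u * (starRingEnd ℂ) (d χ u) = (Nat.card D : ℂ)
  int : ∀ χ, ∀ u ∈ R, IsIntegral ℤ (d χ u)
  pow : ∀ u ∈ R, ∀ s : ℕ, ¬ p ∣ s → u ^ s ∈ R ∧ n (u ^ s) = n u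

/-- The signs. -/
structure PSn (p : ℕ) {D : Type} (R : Set D) (n : D → ℤ) (δ : ℤ) (ε : D → ℤ) : Prop where
  pm : ∀ u, ε u = 1 ∨ ε u = -1
  cg : ∀ u ∈ R, (p : ℤ) ∣ ε u * n u - δ
  nd : ¬ (p : ℤ) ∣ δ
  dep : ∀ u ∈ R, ∀ u' ∈ R, n u = n u' → ε u = ε u'

/-- **PK1** (medium; from LCG, LCO; it is parts (a), (b) of `helper89/FI4/PSG.lean`: copy). Proof: (a) LCO (1) for `f = β χ`, `l = 1`: integers `c χ` with `∑_a β χ a = |D| c χ`. `κ u = ∑_χ c χ * conj (β χ u)` is `LGC` (LCG). For `u ∈ R`: `|D| κ u = ∑_a ∑_χ β χ a * conj (β χ u)`, only the `a = t u`, `t ∈ I`, contribute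
(`ort`), they are different for different `t` (`fr`), and `∑_χ β χ (t u) * conj (β χ u) = ∑_χ |β χ u|² = n(u)² |D|`. So `κ u = |I| n(u)²`. (b) `R` empty: `ε = 1`, `δ = 1`. Otherwise `u₀ ∈ R`, `δ = n u₀`; `κ u - κ u₀` is `InM` (LCO (3)), so `p ∣ |I| (n u - δ)(n u + δ)`, `p ∤ |I|`.
`ε u = 1` if `p ∣ n u - δ`, `-1` otherwise (`p ∣ - n u - δ` then); it depends only on `n u`. -/
def PK1_stmt : Prop :=
  ∀ (p : ℕ) (M : Ideal (integralClosure ℤ ℂ)) (D : Type) [CommGroup D] [Fintype D] (X : Type) [Fintype X]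
    (R : Set D) (I : Subgroup (MulAut D)) (β d : X → D → ℂ) (n : D → ℤ), PD p M R I β d n →
    (∃ κ : D → ℂ, LGC κ ∧ ∀ u ∈ R, κ u = (Nat.card I : ℂ) * (n u : ℂ) ^ 2) ∧ ∃ (δ : ℤ) (ε : D → ℤ), PSn p R n δ ε

/-- **PK2** (medium; from LCG, LCO; compare LSM, LIA of `helper40/FI/SpecLA`). Divisibility by `|D|` at `M`. Proof: `|D| = p ^ a`, `q = p ^ a`; `(ε u n u) ^ q ≡ δ ^ q` modulo `p ^ (a + 1)`, so modulo `|D|` (`dvd_sub_pow_of_dvd_sub`): `(ε u n u) ^ q = δ ^ q + |D| e u`, `e u : ℤ`, `u ∈ R`. `q` is odd, `q - 1 = 2 r`.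
`Σ = ∑_(u ∈ R) ε u d χ u conj (F u)`. For `u ∈ R`: `(ε u n u) ^ q * (ε u d χ u) = (n u ^ 2) ^ r * (n u * d χ u) = (n u ^ 2) ^ r * β χ u` (`ε u ^ 2 = 1`), so `|I| ^ r * δ ^ q * Σ = ∑_(u ∈ R) κ u ^ r * β χ u * conj (F u) - |D| * |I| ^ r * ∑_(u ∈ R) e u * ε u * d χ u * conj (F u)`.
The first sum is the sum over all `u ∈ D` (`F = 0` off `R`) of an `LGC` function, so it is `|D| *` an integer (LCO (1), `l = 1`); the second is `|D| *` an algebraic integer (`d`, `F` are integral: `int`, LCO (2)). `|I|` and `δ` are prime to `p`, so `(|I| ^ r * δ ^ q)⁻¹` is `IntAt`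
(`InM.intCast`, `IntAt.inv`). -/
def PK2_stmt : Prop :=
  ∀ (p : ℕ) (M : Ideal (integralClosure ℤ ℂ)) (D : Type) [CommGroup D] [Fintype D] (X : Type) [Fintype X]
    (R : Set D) (I : Subgroup (MulAut D)) (β d : X → D → ℂ) (n : D → ℤ) (δ : ℤ) (ε : D → ℤ) (κ : D → ℂ), PD p M R I β d n →
    PSn p R n δ ε → LGC κ → (∀ u ∈ R, κ u = (Nat.card I : ℂ) * (n u : ℂ) ^ 2) →
    ∀ (χ : X) (F : D → ℂ), LGC F → (∀ u, u ∉ R → F u = 0) →
    ∃ z : ℂ, IntAt M z ∧ ∑ u, R.indicator (fun u => (ε u : ℂ) * d χ u) u * (starRingEnd ℂ) (F u) = (Nat.card D : ℂ) * z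

/-- **PK3** (short-medium; from LCG, LRU; PORT of LRA, `helper31/FI/LRA.lean`). Rationality. Proof: `|D| = p ^ k`, `U = {s < p ^ k | p ∤ s}` (if `k = 0` then `D` is trivial: use `U = {s < p ^ (k + 1) | p ∤ s}`, it contains `1`). `P u = β χ u * conj (F u)` is `LGC`. `Σ = ∑_(u ∈ R) (ε u / n u) * P u`.
For `s ∈ U` the map `u ↦ u ^ s` is a permutation of `D` (`powCoprime`) which preserves `R` (`pow`; injective on the finite set `R`), `n (u ^ s) = n u`, `ε (u ^ s) = ε u` (`dep`): `Σ = ∑_(u ∈ R) (ε u / n u) * P (u ^ s)`. Sum over `s ∈ U`: `|U| Σ = ∑_(u ∈ R) (ε u / n u) ∑_(s ∈ U) P (u ^ s)`,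
and with `P u = ∑_j c j lv j u` the inner sum is `∑_j c j ∑_s (lv j u) ^ s`, an integer (LRU). -/
def PK3_stmt : Prop :=
  ∀ (p : ℕ) (M : Ideal (integralClosure ℤ ℂ)) (D : Type) [CommGroup D] [Fintype D] (X : Type) [Fintype X]
    (R : Set D) (I : Subgroup (MulAut D)) (β d : X → D → ℂ) (n : D → ℤ) (δ : ℤ) (ε : D → ℤ), PD p M R I β d n →
    PSn p R n δ ε → ∀ (χ : X) (F : D → ℂ), LGC F → (∀ u, u ∉ R → F u = 0) →
    ∃ q : ℚ, ∑ u, R.indicator (fun u => (ε u : ℂ) * d χ u) u * (starRingEnd ℂ) (F u) = (q : ℂ)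

/-- **PIN** (short-medium; from PK1, PK2, PK3, LCO; compare the second half of LIN, `helper29/FI/LIN.lean`). Proof: `ε` from PK1. `ε (u ^ s) = ε u`: `pow`, `dep`. `Σ` is rational (PK3) and an algebraic integer, so an integer `N`; `|D| = p ^ k`, `N = p ^ k z`, `z` is `IntAt` (PK2). `p ^ j ∣ N` by induction on `j ≤ k`:
if `N = p ^ j N'`, `j < k`, then `N' = p ^ (k - j) z` is `InM`, so `p ∣ N'` (`InM.intCast`). -/
def PIN_stmt : Prop :=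
  ∀ (p : ℕ) (M : Ideal (integralClosure ℤ ℂ)) (D : Type) [CommGroup D] [Fintype D] (X : Type) [Fintype X]
    (R : Set D) (I : Subgroup (MulAut D)) (β d : X → D → ℂ) (n : D → ℤ), PD p M R I β d n →
    ∃ ε : D → ℤ, (∀ u, ε u = 1 ∨ ε u = -1) ∧ (∀ u ∈ R, ∀ s : ℕ, ¬ p ∣ s → ε (u ^ s) = ε u) ∧
      ∀ (χ : X) (F : D → ℂ), LGC F → (∀ u, u ∉ R → F u = 0) →
      ∃ m : ℤ, ∑ u, R.indicator (fun u => (ε u : ℂ) * d χ u) u * (starRingEnd ℂ) (F u) = (Nat.card D : ℂ) * m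

/-! ## 3. The exponent `m` -/

/-- The exponent `m` of a Galois automorphism which fixes the roots of unity of order prime to `p` and the `p`-th roots of unity and generates the Galois group of the `|G|_p`-th roots of unity over the `p`-th roots of unity. -/
structure Gm2 (p n m : ℕ) : Prop where
  cop : m.Coprime n
  reg : ∀ d : ℕ, d ∣ n → ¬ p ∣ d → m ≡ 1 [MOD d]
  one : p ∣ n → m ≡ 1 [MOD p]
  two : p ^ 2 ∣ n → m ≡ 1 + p [MOD p ^ 2]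
  gen : ∀ s : ℕ, s ≡ 1 [MOD p] → ∃ j : ℕ, ∀ k : ℕ, p ^ k ∣ n → m ^ j ≡ s [MOD p ^ k]

/-- **GM2** (medium; Mathlib only; compare GMX, `helper43/FI4/GMX.lean`). Proof: `n = p ^ a * n'`, `p ∤ n'`, `m` from the Chinese remainder theorem (`Nat.chineseRemainder`) with `m ≡ 1 + p` modulo `p ^ a`, `m ≡ 1` modulo `n'`. `cop`, `reg`, `one`, `two` are clear. `gen` (`a ≥ 1`): the class of `1 + p` in `(ZMod (p ^ a))ˣ`
has order `p ^ (a - 1)` (Mathlib, `RingTheory/ZMod/UnitsCyclic`: `ZMod.orderOf_one_add_prime`/`ZMod.orderOf_one_add_mul_prime` or similar; `p ≠ 2`), the kernel of `(ZMod (p ^ a))ˣ → (ZMod p)ˣ` has `p ^ (a - 1)` elements (`ZMod.unitsMap` surjective, `Nat.totient_prime_pow`), so it is the group generated by `1 + p`,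
and the class of `s` is in it: `m ^ j ≡ s` modulo `p ^ a`. -/
def GM2_stmt : Prop :=
  ∀ (p n : ℕ), p.Prime → p ≠ 2 → 0 < n → ∃ m : ℕ, Gm2 p n m

/-- **OM2** (short; Mathlib only). Proof: suppose `2 ≤ k`; `p ^ 2 ∣ n`, `m ^ i ≡ 1` modulo `p ^ 2`, `m ≡ 1 + p` (`two`), `(1 + p) ^ i ≡ 1 + i p` modulo `p ^ 2` (induction on `i`), so `p ^ 2 ∣ i p`, `p ∣ i`. -/
def OM2_stmt : Prop :=
  ∀ (p n m i k : ℕ), p.Prime → Gm2 p n m → ¬ p ∣ i → p ^ k ∣ n → m ^ i ≡ 1 [MOD p ^ k] → k ≤ 1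

/-- **GP2** (short; PORT of GPW, `helper52/FI4/GPW.lean`; replace `¬ p ∣ s` by `s ≡ 1 [MOD p]` and `Gm` by `Gm2`). -/
def GP2_stmt : Prop :=
  ∀ (p : ℕ), p.Prime → ∀ (G : Type) [Group G] [Finite G] (m : ℕ), Gm2 p (Nat.card G) m → ∀ ψ : G → ℂ, PR m ψ →
    ∀ u v : G, u * v = v * u → PEl p u → PReg p v → ∀ s : ℕ, s ≡ 1 [MOD p] → ψ (u ^ s * v) = ψ (u * v)

/-- **DP2** (short-medium; from DF4, GP2; the first half of IR4, `helper28/FI4/IR4.lean`). Proof: `K = Cz ⊤ u = Cz ⊤ (u ^ s)` (`s` is prime to `p`, `u` is a power of `u ^ s`). `Bl M K θ` is not empty (`Good.card`), `η₀` in it. DF4 for `w = u ^ s` and for `w = u` (both central in `K`), GP2 (`v ∈ K` commutes with `u`). -/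
def DP2_stmt : Prop :=
  ∀ (p : ℕ) (M : Ideal (integralClosure ℤ ℂ)), Setup p M → ∀ (G : Type) [Group G] [Finite G]
    (D : Subgroup G) (θ : G → ℂ) (m : ℕ), Gm2 p (Nat.card G) m → ∀ u : G, PEl p u → Good p M D (Cz (⊤ : Subgroup G) u) θ →
    ∀ ψ ∈ IrrOn (⊤ : Subgroup G), PR m ψ → ∀ s : ℕ, s ≡ 1 [MOD p] →
    dd M (Cz (⊤ : Subgroup G) (u ^ s)) θ ψ (u ^ s) = dd M (Cz (⊤ : Subgroup G) u) θ ψ u

/-! ## 4. `l(B) ≤ |X|` -/

/-- **CN2** (medium; from QCNc, QFUc, OM2, FEQ, .. as CNO; PORT of CNO, `helper24/FI4/CNO.lean`). Proof: as CNO up to `u ^ (m ^ i) = u`, `i = iI M D θ`, `u = l y l⁻¹ ∈ D`, `orderOf u = orderOf y = p ^ k` divides `|G|`, so `m ^ i ≡ 1` modulo `p ^ k`; `p ∤ i` (`LoA.bet`): OM2 gives `k ≤ 1`, `y ^ p = 1`. -/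
def CN2_stmt : Prop :=
  ∀ (p : ℕ) (M : Ideal (integralClosure ℤ ℂ)), Setup p M → ∀ (G : Type) [Group G] [Finite G]
    (D : Subgroup G) (x : G) (θ χ : G → ℂ), LoA p M D x θ χ →
    ∀ m : ℕ, Gm2 p (Nat.card G) m → ∀ y : G, PEl p y → y ^ p ≠ 1 →
    ∀ ψ ∈ IrrOn (Cz (⊤ : Subgroup G) y), SB M (⊤ : Subgroup G) ψ θ → ∀ w : G, w * y * w⁻¹ = y ^ m →
    ¬ SB M (Cz (⊤ : Subgroup G) y) (cjF w ψ) ψ

/-- **CS2** (short-medium; from CEX, CBL, CCL, CN2, FBC, IF; PORT of CSZ, `helper51/FI4/CSZ.lean`). -/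
def CS2_stmt : Prop :=
  ∀ (p : ℕ) (M : Ideal (integralClosure ℤ ℂ)), Setup p M → ∀ (G : Type) [Group G] [Finite G]
    (D : Subgroup G) (x : G) (θ χ : G → ℂ), LoA p M D x θ χ →
    ∀ m : ℕ, Gm2 p (Nat.card G) m → ∀ y : G, PEl p y → y ^ p ≠ 1 →
    ∑ᶠ v ∈ {v : G | v ∈ Cz (⊤ : Subgroup G) y ∧ PReg p v},
      Sf (Bl M (⊤ : Subgroup G) θ) (y ^ m * v) (y * v) = 0

/-- **CP2** (short; from STC of FI, B2). The sections of the elements of order `p` contribute at least `0`. Proof: `y ^ m = y`: clear if `y = 1`, otherwise `orderOf y = p` divides `|G|` and `m ≡ 1` modulo `p` (`one`). `Sf S g g = ∑_(ψ ∈ S) ψ g * ψ g⁻¹ = ∑ ‖ψ g‖²` (`ψ g⁻¹ = conj (ψ g)`: STC), a finite sum (B2), real and `≥ 0`. -/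
def CP2_stmt : Prop :=
  ∀ (p : ℕ) (M : Ideal (integralClosure ℤ ℂ)), Setup p M → ∀ (G : Type) [Group G] [Finite G] (θ : G → ℂ) (m : ℕ),
    Gm2 p (Nat.card G) m → ∀ y : G, y ^ p = 1 →
    ∃ r : ℝ, 0 ≤ r ∧ ∑ᶠ v ∈ {v : G | v ∈ Cz (⊤ : Subgroup G) y ∧ PReg p v},
      Sf (Bl M (⊤ : Subgroup G) θ) (y ^ m * v) (y * v) = (r : ℂ)

/-- **CNL** (medium; from CFX, PPT, CS2, CP2, and the hypotheses of CN4; PORT of CN4, `helper63/FI4/CN4.lean`). Proof: as CN4: `|G| |X| = ∑_y ∑_v Sf B ((y v) ^ m) (y v)`, `y` `p`-element, `v ∈ Cz ⊤ y` `p`-regular, `(y v) ^ m = y ^ m v`. The part `y = 1` is `|G| LL p M χ ⊤`; the parts with `y ^ p ≠ 1` are `0` (CS2), the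
parts with `y ^ p = 1`, `y ≠ 1` are real and `≥ 0` (CP2). Divide by `|G|`. -/
def CNL_stmt : Prop :=
  ∀ (p : ℕ) (M : Ideal (integralClosure ℤ ℂ)), Setup p M → ∀ (G : Type) [Group G] [Finite G]
    (D : Subgroup G) (x : G) (θ χ : G → ℂ), LoA p M D x θ χ → ∀ m : ℕ, Gm2 p (Nat.card G) m →
    ∃ r : ℝ, 0 ≤ r ∧ ({ψ : G → ℂ | ψ ∈ Blk M χ (⊤ : Subgroup G) ∧ PR m ψ}.ncard : ℂ) = LL p M χ ⊤ + r

/-! ## 5. The bound -/

/-- **SGL** (medium; from PIN and the hypotheses of SG4 (QID, NU4, OR4, DOR4, GRG, RGF, QEU, QCG, QDI, LCG ..); PORT of SG4, `helper98/FI4/SG4.lean`, with PIN in place of PSG). Proof: as SG4; `pow` of `PD`: RGF (2), NU4 (`n (u ^ s) = n u`). `ε` on `G`: `ε u` of PIN for `u ∈ D`, `1` outside. The `CommGroup` structure of `D` is used only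
inside the proof (`LGC` and the sums do not depend on it); `R = {u : D | (u : G) ∈ RG M D θ}`. -/
def SGL_stmt : Prop :=
  ∀ (p : ℕ) (M : Ideal (integralClosure ℤ ℂ)), Setup p M → p ≠ 2 → ∀ (G : Type) [Group G] [Finite G]
    (D : Subgroup G) (x : G) (θ χ : G → ℂ), LoA p M D x θ χ →
    ∃ ε : G → ℤ, (∀ u, ε u = 1 ∨ ε u = -1) ∧ (∀ u ∈ RG M D θ, ∀ s : ℕ, ¬ p ∣ s → ε (u ^ s) = ε u) ∧
      ∀ ψ ∈ Bl M (⊤ : Subgroup G) θ, ∀ F : D → ℂ, LGC F → (∀ u : D, (u : G) ∉ RG M D θ → F u = 0) →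
      ∃ m : ℤ, ∑ᶠ u : D, {u : D | (u : G) ∈ RG M D θ}.indicator
        (fun u : D => (ε u : ℂ) * dd M (Cz (⊤ : Subgroup G) (u : G)) θ ψ u) u * (starRingEnd ℂ) (F u) = (Nat.card D : ℂ) * m

/-- **COV** (medium; finite groups; compare XRG, `helper40/FI4/XRG.lean`). The elements of `D` which are not regular. Proof: `C = cz D ≤ T = TT M D θ ≤ nz D`; `T` has `iI M D θ` cosets of `C`; `t_i`, `i : Fin (iI M D θ - 1)`, representatives of the cosets different from `C` (`T ⧸ C.subgroupOf T`; an `Equiv` of the type of the elements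
`≠ 1` of the quotient with `Fin (iI - 1)`). `C i = {u : D | t_i u = u t_i}`. `u ∈ D` is not in `RG` iff some `t ∈ T`, `t ∉ C`, commutes with `u`; `t = t_i c` or `c t_i`, `c ∈ C` commutes with `u`, so `t_i` commutes with `u`. The map `w ↦ w⁻¹ t w t⁻¹`, `D → D` (`t ∈ nz D`), is a homomorphism because `D` is commutative, with the kernel `C i`;
its image contains an element `v` with `v ^ p ^ (c + h - 1) ≠ 1` (`HL.wit`), and `orderOf v` is a power of `p`, so `orderOf v ≥ p ^ (c + h) ≥ p ^ c` (`HL.pos`): `(C i).index = |image| ≥ p ^ c`. -/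
def COV_stmt : Prop :=
  ∀ (p : ℕ) (M : Ideal (integralClosure ℤ ℂ)), p.Prime → ∀ (G : Type) [Group G] [Finite G] (D : Subgroup G) (θ : G → ℂ) (n c h : ℕ),
    IsPGroup p D → (∀ a ∈ D, ∀ b ∈ D, a * b = b * a) → TT M D θ ≤ nz D → cz D ≤ TT M D θ → HL p M D θ n c h →
    ∃ C : Fin (iI M D θ - 1) → Subgroup D, (∀ u : D, (u : G) ∉ RG M D θ ↔ ∃ i, u ∈ C i) ∧ ∀ i, p ^ c ≤ (C i).index

/-- **BDX** (medium; from DEC, SGL, COV, DP2, BES4, NZ3, GRG, RGF, LCG, TPR, LOA-facts). Proof: let `ι` be the (finite) type of the `ψ ∈ Blk M χ ⊤ = Bl M ⊤ θ` (TPR) with `PR m ψ`, `i = iI M D θ ≥ 1` (RGF), `i ≤ n`, `ε` from SGL, `g ψ u = ε u * dd M (Cz ⊤ u) θ ψ u` for `u : D`, `u ∈ RG`, and `0` otherwise.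
`N = i - 1`, `C` from COV (`TT ≤ nz D` by definition, `cz D ≤ TT`: `cz_le_TT`), `16 ^ N * i ≤ 16 ^ n * n < p ^ c ≤ (C j).index` (`HL.exp`). DEC for `D` (commutative), `n := i`: (a) `g ψ = 0` on the `C j` (COV). (b) `F u = lv l u * ∏_j (1 - lv (w j) u)` is `LGC` (LCG; induction over the product) and `0` off `RG` (COV): SGL.
(c) BES4 for `a` extended by `0`. (d) some `u : D` is in `RG`: otherwise `D = ⋃ C j` and `|D| ≤ ∑ |C j| ≤ N |D| / p ^ c < |D|`; NZ3 (`P = ⊥`, GRG) gives `dd ≠ 0`, so `g ψ u ≠ 0`. (e) `u ^ s ∈ RG ↔ u ∈ RG` (RGF), `ε (u ^ s) = ε u` (SGL), DP2 (GRG); `s ≡ 1` modulo `p` implies `p ∤ s`. -/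
def BDX_stmt : Prop :=
  ∀ (p : ℕ) (M : Ideal (integralClosure ℤ ℂ)), Setup p M → p ≠ 2 → ∀ (G : Type) [Group G] [Finite G]
    (D : Subgroup G) (x : G) (θ χ : G → ℂ), LoA p M D x θ χ → ∀ n c h : ℕ, HL p M D θ n c h → 16 ^ n * n < p ^ c → ∀ m : ℕ, Gm2 p (Nat.card G) m →
    {ψ : G → ℂ | ψ ∈ Blk M χ (⊤ : Subgroup G) ∧ PR m ψ}.ncard ≤
      4 * iI M D θ * {u : G | u ∈ D ∧ orderOf u ≤ 4 * p * iI M D θ}.ncard

/-- **BDA** (short; the output of the block: the bound under the first alternative of `HL.bnd`; from LOA, GM2, CNL, BDX, LLN). Proof: LOA; `m` from GM2; `LL p M χ ⊤ = l`, `1 ≤ l` (LLN for `⊤`, `χ ∈ Blk M χ ⊤`); CNL: `l ≤ |X|`; BDX and `iI ≤ n`: `|X| ≤ 4 n #{u ∈ D | o(u) ≤ 4 p n} ≤ p ^ c`. -/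
def BDA_stmt : Prop :=
  ∀ (p : ℕ) (M : Ideal (integralClosure ℤ ℂ)), Setup p M → p ≠ 2 → ∀ (G : Type) [Group G] [Finite G]
    (D : Subgroup G) (x : G) (θ χ : G → ℂ), Rt p M D x θ χ → ∀ n c h : ℕ, HL p M D θ n c h →
    4 * n * {u : G | u ∈ D ∧ orderOf u ≤ 4 * p * n}.ncard ≤ p ^ c → 16 ^ n * n < p ^ c →
    ∃ l : ℕ, LL p M χ ⊤ = l ∧ 1 ≤ l ∧ l ≤ p ^ c

end Pool.Agent.LE
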