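import Pool.Agent.helper12.LE.SpecB
import Pool.Agent.helper40.FI.Basic

set_option autoImplicit false

namespace Pool.Agent.LE

open Pool.Agent.helper58.DC Pool.Agent.DI Pool.Agent.GR Pool.Agent.OB Pool.Agent.DR Pool.Agent.FI Pool.Agent.FI3 Pool.Agent.FI4 Pool.Agent.FI4C Pool.Agent.FI4B

section

variable {D : Type} [CommGroup D]

/-- the characters trivial on `K` -/
def KCS_an (K : Subgroup D) : Subgroup (D →* ℂˣ) where
  carrier := {l | ∀ k ∈ K, lv l k = 1}
  one_mem' := fun k _ => by simp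
  mul_mem' := fun {a b} ha hb k hk => by rw [lv_hmul, ha k hk, hb k hk, one_mul]
  inv_mem' := fun {a} ha k hk => by rw [lv_hinv, ha k hk, inv_one]

theorem KCS_mem {K : Subgroup D} {l : D →* ℂˣ} : l ∈ KCS_an K ↔ ∀ k ∈ K, lv l k = 1 := Iff.rfl

theorem KCS_hpow (l : D →* ℂˣ) (n : ℕ) (u : D) : lv (l ^ n) u = lv l u ^ n := by
  simp [lv]

theorem KCS_hpow' (l : D →* ℂˣ) (n : ℕ) (u : D) : lv (l ^ n) u = lv l (u ^ n) := by
  rw [KCS_hpow, lv_pow]

/-- `P w`: `w` is `q` times an algebraic integer -/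
theorem KCS_sum {ι : Type} (s : Finset ι) (g : ι → ℂ) (q : ℂ)
    (h : ∀ i ∈ s, ∃ z : ℂ, IsIntegral ℤ z ∧ g i = q * z) : ∃ z : ℂ, IsIntegral ℤ z ∧ ∑ i ∈ s, g i = q * z := by
  classical
  induction s using Finset.induction_on with
  | empty => exact ⟨0, isIntegral_zero, by simp⟩
  | insert a s ha ih =>
    obtain ⟨z, hz, hz'⟩ := ih fun i hi => h i (Finset.mem_insert_of_mem hi)
    obtain ⟨w, hw, hw'⟩ := h a (Finset.mem_insert_self a s)
    refine ⟨w + z, hw.add hz, ?_⟩
    rw [Finset.sum_insert ha, hz', hw', mul_add]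

/-- a sum of a character over a subgroup -/
theorem KCS_orth {X : Type} [CommGroup X] (χ : X → ℂ) (hχ : ∀ a b, χ (a * b) = χ a * χ b) (H : Subgroup X)
    [Fintype H] (h1 : ∀ x, χ x ≠ 0) :
    ∑ x : H, χ (x : X) = (Nat.card H : ℂ) * 1 ∨ ∑ x : H, χ (x : X) = (Nat.card H : ℂ) * 0 := by
  by_cases h : ∀ x : H, χ (x : X) = 1
  · left
    rw [Finset.sum_congr rfl fun x _ => h x]
    simp
  · right
    push Not at h
    obtain ⟨y, hy⟩ := h
    have h1 : ∑ x : H, χ (x : X) = χ (y : X) * ∑ x : H, χ (x : X) := by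
      rw [Finset.mul_sum, ← Equiv.sum_comp (Equiv.mulLeft y)]
      refine Finset.sum_congr rfl fun x _ => ?_
      rw [Equiv.coe_mulLeft, Subgroup.coe_mul, hχ]
    have h2 : (χ (y : X) - 1) * ∑ x : H, χ (x : X) = 0 := by linear_combination -h1
    rw [mul_zero]
    exact (mul_eq_zero.1 h2).resolve_left (sub_ne_zero.2 hy)

open Classical in
theorem KCS_part {X : Type} [CommGroup X] [Fintype X] {p : ℕ} (hp : p.Prime) {N j : ℕ} (hX : ∀ x : X, x ^ p ^ N = 1)
    (A : Subgroup X) (hA : ∀ l : X, l ∉ A → l ^ p ^ j ≠ 1) (m : X → ℤ)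
    (hminv : ∀ (l : X) (s : ℕ), s ≡ 1 [MOD p] → m (l ^ s) = m l) (χ : X → ℂ) (hχ : ∀ a b, χ (a * b) = χ a * χ b)
    (hχ0 : ∀ x, χ x ≠ 0) (hχi : ∀ x, IsIntegral ℤ (χ x)) :
    ∃ z : ℂ, IsIntegral ℤ z ∧ ∑ l : X, (m l : ℂ) * χ l =
      (∑ l : X, if l ∈ A then (m l : ℂ) * χ l else 0) + ((p : ℂ) ^ j) * z := by
  haveI := Fact.mk hp
  have hz : ∃ z : ℂ, IsIntegral ℤ z ∧
      ∑ l ∈ Finset.univ.filter (fun l : X => l ∉ A), (m l : ℂ) * χ l = ((p : ℂ) ^ j) * z := by
    set L' := Finset.univ.filter (fun l : X => l ∉ A) with hL'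
    set Q : X → X × Subgroup X := fun l => (l ^ p ^ j, Subgroup.zpowers l) with hQ
    rw [← Finset.sum_fiberwise_of_maps_to (s := L') (t := L'.image Q) (g := Q)
      (fun l hl => Finset.mem_image_of_mem Q hl)]
    refine KCS_sum _ _ _ fun y hy => ?_
    obtain ⟨l, hl, rfl⟩ := Finset.mem_image.1 hy
    have hlA : l ∉ A := (Finset.mem_filter.1 hl).2
    -- the order of `l`
    have hlj : l ^ p ^ j ≠ 1 := hA l hlA
    obtain ⟨i, hi⟩ : ∃ i, orderOf l = p ^ i := by
      obtain ⟨i, -, hi⟩ := (Nat.dvd_prime_pow hp).1 (orderOf_dvd_of_pow_eq_one (hX l))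
      exact ⟨i, hi⟩
    have hij : j < i := by
      by_contra hle
      push Not at hle
      refine hlj ?_
      rw [← orderOf_dvd_iff_pow_eq_one, hi]
      exact pow_dvd_pow p hle
    set μ := l ^ p ^ (i - j) with hμ
    set H := Subgroup.zpowers μ with hH
    have hμo : orderOf μ = p ^ j := by
      rw [hμ, orderOf_pow_of_dvd (pow_ne_zero _ hp.ne_zero), hi, Nat.pow_div (Nat.sub_le i j) hp.pos]
      · congr 1
        omega
      · rw [hi]
        exact pow_dvd_pow p (Nat.sub_le i j)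
    have hHc : Nat.card H = p ^ j := by
      rw [hH, Nat.card_zpowers, hμo]
    have hxH : ∀ x : X, x ∈ H ↔ x ∈ Subgroup.zpowers l ∧ x ^ p ^ j = 1 := by
      intro x
      constructor
      · intro hx
        refine ⟨?_, ?_⟩
        · have h1 : H ≤ Subgroup.zpowers l := by
            rw [hH, Subgroup.zpowers_le]
            exact Subgroup.pow_mem _ (Subgroup.mem_zpowers l) _
          exact h1 hx
        · have h1 : orderOf x ∣ p ^ j := by
            rw [← hHc]
            exact Subgroup.orderOf_dvd_natCard H hx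
          exact orderOf_dvd_iff_pow_eq_one.1 h1
      · rintro ⟨hx, hx'⟩
        rw [mem_zpowers_iff_mem_range_orderOf] at hx
        obtain ⟨n, -, rfl⟩ := Finset.mem_image.1 hx
        have h1 : p ^ i ∣ n * p ^ j := by
          rw [← hi]
          refine orderOf_dvd_of_pow_eq_one ?_
          rw [pow_mul]
          exact hx'
        have h2 : p ^ (i - j) ∣ n := by
          have h3 : p ^ i = p ^ (i - j) * p ^ j := by
            rw [← pow_add]
            congr 1
            omega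
          rw [h3] at h1
          exact Nat.dvd_of_mul_dvd_mul_right (pow_pos hp.pos j) h1
        obtain ⟨r, rfl⟩ := h2
        rw [hH, hμ]
        change l ^ (p ^ (i - j) * r) ∈ _
        rw [pow_mul]
        exact Subgroup.pow_mem _ (Subgroup.mem_zpowers _) _
    have hxs : ∀ x ∈ H, ∃ s : ℕ, s ≡ 1 [MOD p] ∧ l * x = l ^ s := by
      intro x hx
      rw [hH, mem_zpowers_iff_mem_range_orderOf] at hx
      obtain ⟨n, -, rfl⟩ := Finset.mem_image.1 hx
      refine ⟨1 + p ^ (i - j) * n, ?_, ?_⟩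
      · have h1 : p ∣ p ^ (i - j) * n := Dvd.dvd.mul_right (dvd_pow_self p (by omega)) n
        have h2 := (Nat.modEq_zero_iff_dvd).2 h1
        have h3 := (Nat.ModEq.refl (n := p) 1).add h2
        simpa using h3
      · change l * μ ^ n = _
        rw [hμ, ← pow_mul, pow_add, pow_one]
    have hzp : ∀ x ∈ H, Subgroup.zpowers (l * x) = Subgroup.zpowers l := by
      intro x hx
      obtain ⟨s, hs1, hs2⟩ := hxs x hx
      rw [hs2]
      have hps : ¬ p ∣ s := by
        intro hd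
        have h1 : s ≡ 0 [MOD p] := (Nat.modEq_zero_iff_dvd).2 hd
        have h2 : 1 ≡ 0 [MOD p] := hs1.symm.trans h1
        exact hp.one_lt.ne' (Nat.dvd_one.1 ((Nat.modEq_zero_iff_dvd).1 h2))
      have hle : Subgroup.zpowers (l ^ s) ≤ Subgroup.zpowers l := by
        rw [Subgroup.zpowers_le]
        exact Subgroup.pow_mem _ (Subgroup.mem_zpowers l) _
      refine Subgroup.eq_of_le_of_card_ge hle ?_
      rw [Nat.card_zpowers, Nat.card_zpowers, Nat.Coprime.orderOf_pow]
      rw [hi]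
      exact Nat.Coprime.pow_left i ((Nat.Prime.coprime_iff_not_dvd hp).2 hps)
    letI : Fintype H := Fintype.ofFinite H
    have hsum : ∑ l' ∈ L' with Q l' = Q l, (m l' : ℂ) * χ l' =
        ∑ x : H, ((m l : ℂ) * χ l) * χ (x : X) := by
      symm
      refine Finset.sum_bij (fun (x : H) _ => l * (x : X)) ?_ ?_ ?_ ?_
      · intro x _
        rw [Finset.mem_filter, hL', Finset.mem_filter]
        refine ⟨⟨Finset.mem_univ _, ?_⟩, ?_⟩
        · intro h1
          refine hlA ?_
          have h2 : Subgroup.zpowers (l * (x : X)) ≤ A := by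
            rw [Subgroup.zpowers_le]
            exact h1
          rw [hzp _ x.2, Subgroup.zpowers_le] at h2
          exact h2
        · rw [hQ]
          simp only [Prod.mk.injEq]
          refine ⟨?_, hzp _ x.2⟩
          rw [mul_pow, ((hxH _).1 x.2).2, mul_one]
      · intro x _ y _ h1
        exact Subtype.ext (mul_left_cancel h1)
      · intro l' hl'
        rw [Finset.mem_filter, hQ] at hl'
        simp only [Prod.mk.injEq] at hl'
        obtain ⟨-, h1, h2⟩ := hl'
        refine ⟨⟨l⁻¹ * l', (hxH _).2 ⟨?_, ?_⟩⟩, Finset.mem_univ _, ?_⟩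
        · refine Subgroup.mul_mem _ (Subgroup.inv_mem _ (Subgroup.mem_zpowers l)) ?_
          rw [← h2]
          exact Subgroup.mem_zpowers l'
        · rw [mul_pow, h1, inv_pow, inv_mul_cancel]
        · change l * (l⁻¹ * l') = l'
          rw [mul_inv_cancel_left]
      · intro x _
        obtain ⟨s, hs1, hs2⟩ := hxs _ x.2
        rw [hχ, hs2, hminv l s hs1]
        ring
    rw [hsum, ← Finset.mul_sum]
    have hint : IsIntegral ℤ ((m l : ℂ) * χ l) := by
      refine IsIntegral.mul ?_ (hχi l)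
      exact isIntegral_algebraMap (R := ℤ) (A := ℂ) (x := m l)
    rcases KCS_orth χ hχ H hχ0 with h1 | h1
    · refine ⟨(m l : ℂ) * χ l, hint, ?_⟩
      rw [h1, hHc]
      push_cast
      ring
    · refine ⟨0, isIntegral_zero, ?_⟩
      rw [h1]
      ring
  obtain ⟨z, hz1, hz2⟩ := hz
  refine ⟨z, hz1, ?_⟩
  rw [← hz2, ← Finset.sum_filter]
  exact (Finset.sum_filter_add_sum_filter_not _ _ _).symm

theorem KCS_orth' [Fintype D] (K : Subgroup D) [Fintype K] (l : D →* ℂˣ) (h : l ∉ KCS_an K) :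
    ∑ k : K, lv l (k : D) = 0 := by
  rw [KCS_mem] at h
  push Not at h
  obtain ⟨y, hyK, hy⟩ := h
  have h1 : ∑ x : K, lv l (x : D) = lv l y * ∑ x : K, lv l (x : D) := by
    rw [Finset.mul_sum, ← Equiv.sum_comp (Equiv.mulLeft (⟨y, hyK⟩ : K))]
    refine Finset.sum_congr rfl fun x _ => ?_
    rw [Equiv.coe_mulLeft, Subgroup.coe_mul, lv_mul]
  have h2 : (lv l y - 1) * ∑ x : K, lv l (x : D) = 0 := by linear_combination -h1
  exact (mul_eq_zero.1 h2).resolve_left (sub_ne_zero.2 hy)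

end

theorem KCS : KCS_stmt := by
  intro p hp D _ _ hpg j K hK f hf hs u
  classical
  haveI := Fact.mk hp
  letI : Fintype (D →* ℂˣ) := Fintype.ofFinite _
  obtain ⟨m, hm⟩ := hf
  have hm' : ∀ u, f u = ∑ l : D →* ℂˣ, (m l : ℂ) * lv l u := by
    intro u
    rw [hm, finsum_eq_sum_of_fintype]
  obtain ⟨N, hN⟩ := hpg.exists_card_eq
  have hD0 : (Nat.card D : ℂ) ≠ 0 := by
    have : Nat.card D ≠ 0 := Nat.card_pos.ne'
    exact_mod_cast this
  -- the coefficients
  have hcoef : ∀ l : D →* ℂˣ, (Nat.card D : ℂ) * m l = ∑ v, f v * lv l v⁻¹ := by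
    intro l
    have h1 : ∑ v, f v * lv l v⁻¹ = ∑ l' : D →* ℂˣ, (m l' : ℂ) * ∑ v, lv l' v * lv l v⁻¹ := by
      rw [Finset.sum_congr rfl fun v _ => by rw [hm' v, Finset.sum_mul]]
      rw [Finset.sum_comm]
      refine Finset.sum_congr rfl fun l' _ => ?_
      rw [Finset.mul_sum]
      exact Finset.sum_congr rfl fun v _ => by ring
    rw [h1, Finset.sum_congr rfl fun l' _ => by rw [sum_lv_lv l' l]]
    rw [Finset.sum_eq_single l]
    · rw [if_pos rfl, mul_comm]
    · intro b _ hb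
      rw [if_neg hb, mul_zero]
    · intro h
      exact absurd (Finset.mem_univ l) h
  have hminv : ∀ (l : D →* ℂˣ) (s : ℕ), s ≡ 1 [MOD p] → m (l ^ s) = m l := by
    intro l s hs1
    have hps : ¬ p ∣ s := by
      intro hd
      have h1 : s ≡ 0 [MOD p] := (Nat.modEq_zero_iff_dvd).2 hd
      have h2 : 1 ≡ 0 [MOD p] := hs1.symm.trans h1
      exact hp.one_lt.ne' (Nat.dvd_one.1 ((Nat.modEq_zero_iff_dvd).1 h2))
    have hcop : (Nat.card D).Coprime s := by
      rw [hN]
      exact Nat.Coprime.pow_left N ((Nat.Prime.coprime_iff_not_dvd hp).2 hps)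
    have h3 : (Nat.card D : ℂ) * m (l ^ s) = (Nat.card D : ℂ) * m l := by
      rw [hcoef, hcoef, ← Equiv.sum_comp (powCoprime hcop) (fun v => f v * lv l v⁻¹)]
      refine Finset.sum_congr rfl fun v _ => ?_
      change f v * lv (l ^ s) v⁻¹ = f (v ^ s) * lv l (v ^ s)⁻¹
      rw [hs s hs1, KCS_hpow', inv_pow]
    have h4 := mul_left_cancel₀ hD0 h3
    exact_mod_cast h4
  obtain ⟨z, hz1, hz2⟩ := KCS_part (X := D →* ℂˣ) hp (N := N) (j := j) (fun l => by
      refine lv_inj fun v => ?_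
      change lv (l ^ p ^ N) v = _
      rw [KCS_hpow, lv_hone, ← hN]
      exact lv_pow_card l v) (KCS_an K) (fun l hl h1 => by
      refine hl ?_
      rw [KCS_mem]
      intro k hk
      obtain ⟨v, rfl⟩ := hK k hk
      rw [← KCS_hpow']
      have h2 : l ^ p ^ j = 1 := h1
      rw [h2, lv_hone]) m hminv (fun l => lv l u) (fun a b => lv_hmul a b u) (fun l => lv_ne l u)
      (fun l => lv_int l u)
  refine ⟨∑ l : D →* ℂˣ, if l ∈ KCS_an K then (m l : ℂ) * lv l u else 0, z, ?_, hz1, ?_, ?_⟩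
  · refine IsIntegral.sum _ fun l _ => ?_
    split_ifs
    · refine IsIntegral.mul ?_ (lv_int l u)
      exact isIntegral_algebraMap (R := ℤ) (A := ℂ) (x := m l)
    · exact isIntegral_zero
  · letI : Fintype K := Fintype.ofFinite K
    rw [finsum_eq_sum_of_fintype, Finset.sum_congr rfl fun (k : K) _ => hm' (u * k), Finset.sum_comm, Finset.mul_sum]
    refine Finset.sum_congr rfl fun l _ => ?_
    have h1 : ∑ k : K, (m l : ℂ) * lv l (u * k) = ((m l : ℂ) * lv l u) * ∑ k : K, lv l (k : D) := by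
      rw [Finset.mul_sum]
      exact Finset.sum_congr rfl fun k _ => by rw [lv_mul]; ring
    rw [h1]
    by_cases hl : l ∈ KCS_an K
    · rw [if_pos hl, Finset.sum_congr rfl fun (k : K) _ => hl k k.2]
      simp
      ring
    · rw [if_neg hl, KCS_orth' K l hl, mul_zero, mul_zero]
  · rw [hm' u]
    exact hz2

end Pool.Agent.LE
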