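import Pool.Agent.helper83.LE.AllB
import Pool.Agent.helper83.FI4B.All
import Pool.Agent.helper1.FI4.AllHT
import Pool.Agent.helper58.LE.AllG
import Pool.Agent.helper28.LE.KPA
import Pool.Agent.helper83.LE.KCS
import Pool.Agent.helper92.LE.KSG
import Pool.Agent.helper29.LE.KUT
import Pool.Agent.helper63.LE.KRP
import Pool.Agent.helper27.LE.KZU
import Pool.Agent.helper41.LE.KZJ
import Pool.Agent.helper27.LE.KAM
import Pool.Agent.helper2.LE.KOR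
import Pool.Agent.helper51.LE.KAS
import Pool.Agent.helper34.LE.KZS
import Pool.Agent.helper18.LE.KXC
import Pool.Agent.helper25.LE.KXB
import Pool.Agent.helper9.LE.KHH
import Pool.Agent.helper33.LE.KBL
import Pool.Agent.helper94.LE.KPW
import Pool.Agent.helper94.LE.KIX
import Pool.Agent.helper94.LE.KEX
import Pool.Agent.helper12.LE.BDE

/-!
# Project LE (MP_baa4d7_al), block BOUND-K: assembly (no hypotheses)

OUTPUT: `kKBL : KBL_stmt` (`helper12/LE/SpecB`), `kBDE : BDE_stmt` (`helper70/LE/Defs3`), `kKPW kKIX kKEX`.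
-/

set_option autoImplicit false

namespace Pool.Agent.LE.AllBK

open Pool.Agent Pool.Agent.FI Pool.Agent.FI3 Pool.Agent.FI4 Pool.Agent.FI4B Pool.Agent.GR Pool.Agent.helper58.DC Pool.Agent.DI Pool.Agent.OB Pool.Agent.LE

theorem kKPA : KPA_stmt := LE.KPA aLA_LCG aLA_LCO
theorem kKCS : KCS_stmt := LE.KCS
theorem kKSG : KSG_stmt := LE.KSG kKPA FI4B.AllB.bBRI AllQ2.dQID AllP4.pNU4 AllP4.pOR4 AllP4.pDOR4 AllP4.pGRG AllP4.pRGF
  (AllQ2.eQEU AllQ.qQEV) AllQ2.dQCG AllQ.qQDI aLA_LCG Pool.Agent.OB.AllG.gZT4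
theorem kKUT : KUT_stmt := LE.KUT AllHT.hUNV AllHT.hHTD AllH3.hTRW AllH3.hQNW AllQ2.dQID AllR.rRR1 AllP4.pHTZ4
theorem kKRP : KRP_stmt := LE.KRP AllP4.pRGF
theorem kKZU : KZU_stmt := LE.KZU kKCS kKUT AllP4.pGRG AllQ.qQDI
theorem kKZJ : KZJ_stmt := LE.KZJ AllHT.hDPX
theorem kKAM : KAM_stmt := LE.KAM kKZU kKZJ kKRP AllHT.hNRC
theorem kKOR : KOR_stmt := LE.KOR AllP4.pDOR4 AllP4.pGRG
theorem kKAS : KAS_stmt := LE.KAS kKRP
theorem kKZS : KZS_stmt := LE.KZS AllB.lDP2 AllP4.pGRG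
theorem kKXC : KXC_stmt := LE.KXC kKOR kKAS kKZS
theorem kKXB : KXB_stmt := LE.KXB kKSG kKAM kKXC kKRP AllA.dTPR
theorem kKHH : KHH_stmt := LE.KHH AllG.gDFE
theorem kKBL : KBL_stmt := LE.KBL AllP4.pLOA AllB.lGM2 AllB.lCNL kKXB kKHH FI4.AllK.kLLN AllA.dTPR
theorem kKPW : KPW_stmt := LE.KPW
theorem kKIX : KIX_stmt := LE.KIX
theorem kKEX : KEX_stmt := LE.KEX kKIX
theorem kBDE : BDE_stmt := LE.BDE kKBL

end Pool.Agent.LE.AllBK
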