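import Pool.Agent.helper83.LE.PB

set_option autoImplicit false

/-!
# LE: the terms of the lace expansion are bounded by diagrams
-/

open Finset Classical

namespace Pool.Agent.helper66.LE

variable {V : Type}

theorem PD_EE_nonneg [Fintype V] {T : Matrix V V ℝ} (hT : ∀ x y, 0 ≤ T x y) (v a x : V) :
    0 ≤ EE T v a x :=
  Finset.sum_nonneg fun _ _ => mul_nonneg (mul_nonneg (mul_nonneg (hT _ _) (hT _ _)) (hT _ _))
    (hT _ _)

theorem PD_KK_nonneg [Fintype V] {T : Matrix V V ℝ} (hT : ∀ x y, 0 ≤ T x y) (v a u y : V) :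
    0 ≤ KK T v a u y := by
  refine Finset.sum_nonneg fun t _ => Finset.sum_nonneg fun s _ => mul_nonneg ?_ (hT _ _)
  have a1 := hT v s
  have a2 := hT s t
  have a3 := hT t a
  have a4 := hT a u
  have a5 := hT t u
  have a6 := hT v t
  have a7 := hT t s
  have a8 := hT s a
  have a9 := hT a s
  have a10 := hT s u
  positivity

theorem PD_Dg_nonneg [Fintype V] {T Q : Matrix V V ℝ} (hT : ∀ x y, 0 ≤ T x y)
    (hQ : ∀ x y, 0 ≤ Q x y) : ∀ (n : ℕ) (v a x : V), 0 ≤ Dg T Q n v a x := by
  intro n
  induction n with
  | zero => exact fun v a x => PD_EE_nonneg hT v a x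
  | succ n ih =>
    intro v a x
    exact Finset.sum_nonneg fun u _ => Finset.sum_nonneg fun w _ => Finset.sum_nonneg fun y _ =>
      mul_nonneg (mul_nonneg (PD_KK_nonneg hT _ _ _ _) (hQ _ _)) (ih _ _ _)

theorem PD_T [Fintype V] {q : ℝ} (h0 : 0 ≤ q) (h1 : q ≤ 1) (E : Finset (Sym2 V)) (x y : V) :
    0 ≤ (Matrix.of (t2 q E)) x y := t2_nonneg h0 h1 x y

theorem PD_Q {q : ℝ} (h0 : 0 ≤ q) (E : Finset (Sym2 V)) (u w : V) :
    0 ≤ (Matrix.of fun u w => if s(u, w) ∈ E then q else 0 : Matrix V V ℝ) u w := by
  rw [Matrix.of_apply]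
  split_ifs
  · exact h0
  · exact le_rfl

/-- PD (from PB) -/
theorem Phi_le [Fintype V] {q : ℝ} (h0 : 0 ≤ q) (h1 : q ≤ 1) (E : Finset (Sym2 V)) (n : ℕ)
    (A : Set V) (v x : V) : 0 ≤ Phi q E n A v x ∧ Phi q E n A v x ≤
      ∑ a, if a ∈ A then Dg (Matrix.of (t2 q E))
        (Matrix.of fun u w => if s(u, w) ∈ E then q else 0) n v a x else 0 := by
  induction n generalizing A v x with
  | zero => exact ⟨Pr_nonneg h0 h1 _ _, Pr_Epr_le h0 h1 E A v x⟩
  | succ n ih =>
    refine ⟨?_, ?_⟩
    · refine Finset.sum_nonneg fun u _ => Finset.sum_nonneg fun w _ => ?_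
      split_ifs with he
      · refine mul_nonneg h0 (Ex_nonneg h0 h1 fun F _ => ?_)
        split_ifs
        · exact (ih _ _ _).1
        · exact le_rfl
      · exact le_rfl
    · set T : Matrix V V ℝ := Matrix.of (t2 q E) with hTd
      set Q : Matrix V V ℝ := Matrix.of fun u w => if s(u, w) ∈ E then q else 0 with hQd
      have hT : ∀ x y, 0 ≤ T x y := PD_T h0 h1 E
      have hQ : ∀ x y, 0 ≤ Q x y := PD_Q h0 E
      have hD := PD_Dg_nonneg hT hQ n
      have key : ∀ u w, Ex q E (fun F =>
          if Epr F A v u then Phi q E n (clus (F.erase s(u, w)) v) w x else 0) ≤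
          ∑ y, (∑ a, if a ∈ A then KK T v a u y else 0) * Dg T Q n w y x := by
        intro u w
        have h2 : Ex q E (fun F =>
            if Epr F A v u then Phi q E n (clus (F.erase s(u, w)) v) w x else 0) ≤
            Ex q E (fun F => ∑ y, (if Epr F A v u ∧ Conn F v y then 1 else 0) *
              Dg T Q n w y x) := by
          refine Ex_mono h0 h1 fun F _ => ?_
          by_cases hE : Epr F A v u
          · simp only [hE, if_true, true_and]
            refine (ih _ _ _).2.trans (Finset.sum_le_sum fun y _ => ?_)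
            by_cases hy : y ∈ clus (F.erase s(u, w)) v
            · have hy' : Conn F v y := Conn.mono (erase_sub _) hy
              simp only [hy, hy', if_true, one_mul]
              exact le_rfl
            · simp only [hy, if_false]
              split_ifs
              · rw [one_mul]
                exact hD _ _ _
              · rw [zero_mul]
          · simp only [hE, if_false, false_and, zero_mul, Finset.sum_const_zero]
            exact le_rfl
        refine h2.trans ?_
        rw [Ex_sum]
        refine Finset.sum_le_sum fun y _ => ?_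
        rw [Ex_mul_const]
        refine mul_le_mul_of_nonneg_right (le_trans (le_of_eq ?_)
          (Pr_Epr_conn_le h0 h1 E A v u y)) (hD _ _ _)
        refine Ex_congr fun F _ => ?_
        by_cases h : Epr F A v u ∧ Conn F v y
        · rw [if_pos h, if_pos h]
        · rw [if_neg h, if_neg h]
      have h3 : Phi q E (n + 1) A v x ≤ ∑ u, ∑ w, Q u w *
          ∑ y, (∑ a, if a ∈ A then KK T v a u y else 0) * Dg T Q n w y x := by
        refine Finset.sum_le_sum fun u _ => Finset.sum_le_sum fun w _ => ?_
        rw [hQd, Matrix.of_apply]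
        split_ifs with he
        · exact mul_le_mul_of_nonneg_left (key u w) h0
        · rw [zero_mul]
      refine h3.trans (le_of_eq ?_)
      have h4 : ∀ a, (if a ∈ A then Dg T Q (n + 1) v a x else 0) =
          ∑ u, ∑ w, ∑ y, (if a ∈ A then KK T v a u y else 0) * Q u w * Dg T Q n w y x := by
        intro a
        by_cases ha : a ∈ A
        · simp only [ha, if_true]
          rfl
        · simp [ha]
      rw [Finset.sum_congr rfl fun a _ => h4 a]
      symm
      rw [Finset.sum_comm]
      refine Finset.sum_congr rfl fun u _ => ?_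
      rw [Finset.sum_comm]
      refine Finset.sum_congr rfl fun w _ => ?_
      rw [Finset.sum_comm, Finset.mul_sum]
      refine Finset.sum_congr rfl fun y _ => ?_
      rw [Finset.sum_mul, Finset.mul_sum]
      refine Finset.sum_congr rfl fun a _ => ?_
      ring

end Pool.Agent.helper66.LE
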