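import Pool.Agent.helper64.LE.Base

set_option autoImplicit false

/-!
# LE: the first step of a connection
-/

open Finset Classical

namespace Pool.Agent.helper66.LE

variable {V : Type}

theorem ST_mem (q : ℝ) {E : Finset (Sym2 V)} {e : Sym2 V} (he : e ∈ E) :
    Pr q E (fun F => e ∈ F) = q := by
  unfold Pr
  have h := Ex_open he q (fun _ => 1)
  rw [Ex_const, mul_one] at h
  convert h using 3 with F
  by_cases h : e ∈ F <;> simp [h]

theorem ST_inc (e : Sym2 V) : Inc (fun F : Finset (Sym2 V) => e ∈ F) := fun _ _ h h' => h h'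

/-- ST (from BK): the first step -/
theorem t2_step [Fintype V] {q : ℝ} (h0 : 0 ≤ q) (h1 : q ≤ 1) (E : Finset (Sym2 V)) (x y : V)
    (hxy : x ≠ y) : t2 q E x y ≤ ∑ w, if s(x, w) ∈ E then q * t2 q E w y else 0 := by
  have h2 : t2 q E x y ≤ Pr q E (fun F => ∃ w ∈ univ.filter (fun w => s(x, w) ∈ E),
      Dis (fun F => s(x, w) ∈ F) (fun F => Conn F w y) F) := by
    refine Pr_mono h0 h1 fun F hF hc => ?_
    obtain ⟨u, hu, w, hw, he, F₁, F₂, -, h4, -, -, h7, -, -, h10⟩ :=
      conn_exit {x} hc rfl (fun h => hxy (Set.mem_singleton_iff.1 h).symm)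
    rw [Set.mem_singleton_iff] at hu
    subst hu
    refine ⟨w, Finset.mem_filter.2 ⟨Finset.mem_univ _, hF he⟩, {s(u, w)}, F₂, ?_, h4, ?_, ?_, h10⟩
    · exact Finset.singleton_subset_iff.2 he
    · exact Finset.disjoint_singleton_left.2 h7
    · exact Finset.mem_singleton_self _
  refine h2.trans ((Pr_exists_le h0 h1 E _ _).trans ?_)
  rw [Finset.sum_filter]
  refine Finset.sum_le_sum fun w _ => ?_
  split_ifs with he
  · refine (bk h0 h1 E (ST_inc _) (inc_conn w y)).trans (le_of_eq ?_)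
    rw [ST_mem q he]
    rfl
  · exact le_rfl

end Pool.Agent.helper66.LE
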