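import Pool.Agent.helper59.FI4.AllM
import Pool.Agent.helper58.FI4.AllC
import Pool.Agent.helper1.FI3.AllH3
import Pool.Agent.helper70.FI4.AllK
import Pool.Agent.helper83.LE.SpecB
import Pool.Agent.helper27.LE.GM2
import Pool.Agent.helper78.LE.OM2
import Pool.Agent.helper16.LE.GP2
import Pool.Agent.helper51.LE.DP2
import Pool.Agent.helper85.LE.CN2
import Pool.Agent.helper30.LE.CS2
import Pool.Agent.helper29.LE.CP2
import Pool.Agent.helper23.LE.CNL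
import Pool.Agent.helper47.LE.PIN
import Pool.Agent.helper54.LE.DEC
import Pool.Agent.helper75.LE.SGL
import Pool.Agent.helper78.LE.COV
import Pool.Agent.helper18.LE.BDX
import Pool.Agent.helper33.LE.BDA
import Pool.Agent.helper39.LE.DBE
import Pool.Agent.helper91.LE.ORB
import Pool.Agent.helper43.LE.FOU
import Pool.Agent.helper89.LE.PER
import Pool.Agent.helper49.LE.DUA
import Pool.Agent.helper87.LE.AVE
import Pool.Agent.helper2.LE.DIS
import Pool.Agent.helper41.LE.BIG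
import Pool.Agent.helper44.LE.PK1
import Pool.Agent.helper9.LE.PK2
import Pool.Agent.helper22.LE.PK3

/-!
# Project LE (MP_baa4d7_al), block BOUND-L: assembly (no hypotheses)
-/

set_option autoImplicit false

namespace Pool.Agent.LE.AllB

open Pool.Agent Pool.Agent.FI Pool.Agent.FI3 Pool.Agent.FI4 Pool.Agent.GR Pool.Agent.helper58.DC Pool.Agent.DI Pool.Agent.OB Pool.Agent.LE

theorem lGM2 : GM2_stmt := LE.GM2
theorem lOM2 : OM2_stmt := LE.OM2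
theorem lGP2 : GP2_stmt := LE.GP2
theorem lDP2 : DP2_stmt := LE.DP2 AllM.mDF4 lGP2
theorem lCN2 : CN2_stmt := LE.CN2 AllP4.pQCN4 AllP4.pQFU4 lOM2 AllC.cFEQ
theorem lCS2 : CS2_stmt := LE.CS2 FI4C.AllC.cCEX FI4C.AllC.cCBL FI4C.AllC.cCCL lCN2 AllC.cFBC GR.All.dIF
theorem lCP2 : CP2_stmt := LE.CP2 AllA.dSTC GR.All.dB2
theorem lCNL : CNL_stmt := LE.CNL FI4C.AllC.cCFX GR.All.dPPT lCS2 lCP2 AllC.cFSI GR.All.dIM GR.All.dC3 GR.All.dIF
theorem lFOU : FOU_stmt := LE.FOU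
theorem lPER : PER_stmt := LE.PER
theorem lDUA : DUA_stmt := LE.DUA
theorem lAVE : AVE_stmt := LE.AVE
theorem lDIS : DIS_stmt := LE.DIS lAVE
theorem lBIG : BIG_stmt := LE.BIG lFOU lPER lDIS
theorem lDBE : DBE_stmt := LE.DBE
theorem lORB : ORB_stmt := LE.ORB lFOU
theorem lDEC : DEC_stmt := LE.DEC lDBE lBIG lORB lDUA
theorem lPK1 : PK1_stmt := LE.PK1 aLA_LCG aLA_LCO
theorem lPK2 : PK2_stmt := LE.PK2 aLA_LCG aLA_LCO
theorem lPK3 : PK3_stmt := LE.PK3 aLA_LCG aLA_LRU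
theorem lPIN : PIN_stmt := LE.PIN lPK1 lPK2 lPK3 aLA_LCO
theorem lSGL : SGL_stmt := LE.SGL lPIN aLA_LCG AllQ2.dQID AllP4.pNU4 AllP4.pOR4 AllP4.pDOR4 AllP4.pGRG AllP4.pRGF
  (AllQ2.eQEU AllQ.qQEV) AllQ2.dQCG AllQ.qQDI AllR.rEVM GR.All.dIDM
theorem lCOV : COV_stmt := LE.COV
theorem lBDX : BDX_stmt := LE.BDX lDEC lSGL lCOV lDP2 AllP4.pBES4 AllH3.hNZ3 AllP4.pGRG AllP4.pRGF aLA_LCG AllA.dTPR
theorem lBDA : BDA_stmt := LE.BDA AllP4.pLOA lGM2 lCNL lBDX AllK.kLLN AllA.dTPR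

end Pool.Agent.LE.AllB
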