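import Pool.Agent.helper64.LE.Base
import Pool.Agent.helper49.LE.MG

set_option autoImplicit false

/-!
# LE: the event `E'(v, x; A)` contains the diagram of the last block
-/

open Finset Classical

namespace Pool.Agent.helper66.LE

variable {V : Type}

theorem LG_cons {F F₁ F₂ : Finset (Sym2 V)} {p : V × V} {l : List (V × V)} (h1 : F₁ ⊆ F)
    (h2 : F₂ ⊆ F) (hd : Disjoint F₁ F₂) (h3 : Conn F₁ p.1 p.2) (h4 : DC l F₂) : DC (p :: l) F :=
  ⟨F₁, F₂, h1, h2, hd, h3, h4⟩

theorem LG_single {F : Finset (Sym2 V)} {x y : V} (h : Conn F x y) : DC [(x, y)] F :=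
  LG_cons (F₁ := F) (F₂ := ∅) (Finset.Subset.refl _) (Finset.empty_subset _)
    (Finset.disjoint_empty_right _) h trivial

/-- the diagram once two disjoint paths are found -/
theorem LG_core {F F' G : Finset (Sym2 V)} {A : Set V} {v t x : V} (hF' : F' ⊆ F) (hG : G ⊆ F)
    (hd : Disjoint G F') (hvt : Conn G v t) (h2 : Dis (fun F => Conn F t x) (fun F => Conn F t x) F')
    (hA : ∀ F₁ ⊆ F', ¬ ConnOff F₁ A t x) :
    ∃ a ∈ A, DC [(v, t), (t, a), (a, x), (t, x)] F := by
  obtain ⟨F₁, F₂, h3, h4, h5, h6, h7⟩ := h2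
  obtain ⟨a, ha, F₃, F₄, h8, h9, h10, h11, h12⟩ := hit h6 (hA F₁ h3)
  refine ⟨a, ha, LG_cons hG hF' hd hvt ?_⟩
  refine LG_cons (F₁ := F₃) (F₂ := F₄ ∪ F₂) (h8.trans h3) (Finset.union_subset (h9.trans h3) h4) ?_
    h11 ?_
  · rw [Finset.disjoint_union_right]
    exact ⟨h10, Finset.disjoint_of_subset_left h8 h5⟩
  · exact LG_cons (F₁ := F₄) (F₂ := F₂) Finset.subset_union_left Finset.subset_union_right
      (Finset.disjoint_of_subset_left h9 h5) h12 (LG_single h7)

/-- LG (from MG) -/
theorem epr_sub [Fintype V] {F : Finset (Sym2 V)} {A : Set V} {v x : V} (h : Epr F A v x) :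
    ∃ t, ∃ a ∈ A, DC [(v, t), (t, a), (a, x), (t, x)] F := by
  have hnot : ¬ ConnOff F A v x := h.1.2
  by_cases hp : ∀ u w, ¬ Piv F v x u w
  · -- no pivotal bond
    refine ⟨v, LG_core (F' := F) (G := ∅) (Finset.Subset.refl _) (Finset.empty_subset _)
      (Finset.disjoint_empty_left _) Conn.rfl' (two_paths F v x h.1.1 hp) ?_⟩
    exact fun F₁ hF₁ hc => hnot (hc.mono hF₁)
  · push Not at hp
    obtain ⟨u₀, w₀, hp₀⟩ := hp
    set N : V × V → ℕ := fun p =>
      (univ.filter (fun y => Conn (F.erase s(p.1, p.2)) p.2 y)).card with hN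
    obtain ⟨⟨u, w⟩, hm, hmin⟩ := Finset.exists_min_image
      (univ.filter (fun p : V × V => Piv F v x p.1 p.2)) N
      ⟨(u₀, w₀), Finset.mem_filter.2 ⟨Finset.mem_univ _, hp₀⟩⟩
    have hpiv : Piv F v x u w := (Finset.mem_filter.1 hm).2
    set F₀ := F.erase s(u, w) with hF₀
    have hF₀F : F₀ ⊆ F := erase_sub _
    have hvu : Conn F₀ v u := hpiv.2.1
    have hwx : Conn F₀ w x := hpiv.2.2.1
    have hvx : ¬ Conn F₀ v x := hpiv.2.2.2
    have hvw : ¬ Conn F₀ v w := fun h => hvx (h.trans' hwx)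
    set F' := F₀.filter (fun e => ∀ a ∈ e, Conn F₀ w a) with hF'
    have hF'₀ : F' ⊆ F₀ := Finset.filter_subset _ _
    have memF' : ∀ a b : V, s(a, b) ∈ F' ↔ s(a, b) ∈ F₀ ∧ Conn F₀ w a ∧ Conn F₀ w b := by
      intro a b
      rw [hF', Finset.mem_filter]
      simp [Sym2.mem_iff]
    -- connections from w stay in F'
    have key : ∀ (H : Finset (Sym2 V)) (y : V), H ⊆ F₀ → Conn H w y → Conn (H ∩ F') w y := by
      intro H y hH hc
      refine hc.induct (P := fun a => Conn (H ∩ F') w a) Conn.rfl' ?_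
      intro a b h1 h2 h3
      have h4 : Conn F₀ w a := h1.mono hH
      have h5 : Conn F₀ w b := h4.trans' (conn_of_mem (hH h3))
      exact h2.trans' (conn_of_mem (Finset.mem_inter.2 ⟨h3, (memF' a b).2 ⟨hH h3, h4, h5⟩⟩))
    have hwx' : Conn F' w x := (key F₀ x (Finset.Subset.refl _) hwx).mono Finset.inter_subset_right
    have hnop : ∀ u' w', ¬ Piv F' w x u' w' := by
      intro u' w' hp'
      have he' := (memF' u' w').1 hp'.1
      have hne : s(u', w') ≠ s(u, w) := Finset.ne_of_mem_erase he'.1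
      have hF'e : F'.erase s(u', w') ⊆ F.erase s(u', w') :=
        Finset.erase_subset_erase _ (hF'₀.trans hF₀F)
      -- the old part avoids the new edge
      have h1 : Conn (F.erase s(u', w')) v u := by
        refine hvu.induct (P := fun a => Conn (F.erase s(u', w')) v a) Conn.rfl' ?_
        intro a b h2 h3 h4
        refine h3.trans' (conn_of_mem (Finset.mem_erase.2 ⟨?_, hF₀F h4⟩))
        intro h5
        have h6 : Conn F₀ w a := by
          rw [Sym2.eq_iff] at h5
          rcases h5 with ⟨rfl, rfl⟩ | ⟨rfl, rfl⟩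
          · exact he'.2.1
          · exact he'.2.2
        exact hvw (h2.trans' h6.symm')
      have h2 : Conn (F.erase s(u', w')) v w :=
        h1.trans' (conn_of_mem (Finset.mem_erase.2 ⟨fun h => hne h.symm, hpiv.1⟩))
      have h3 : ¬ Conn (F.erase s(u', w')) v x := by
        intro h4
        have h5 := (hpiv.sub (erase_sub _) h4).2.2.1
        have h6 : (F.erase s(u', w')).erase s(u, w) = F₀.erase s(u', w') := by
          rw [hF₀, Finset.erase_right_comm]
        rw [h6] at h5
        have h7 := key _ x (erase_sub _) h5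
        refine hp'.2.2.2 (h7.mono fun e he => ?_)
        rw [Finset.mem_inter, Finset.mem_erase] at he
        exact Finset.mem_erase.2 ⟨he.1.1, he.2⟩
      have hnew : Piv F v x u' w' :=
        ⟨hF₀F (hF'₀ hp'.1), h2.trans' (hp'.2.1.mono hF'e), hp'.2.2.1.mono hF'e, h3⟩
      have hno : ¬ Conn (F'.erase s(u', w')) w' w := fun h4 =>
        hp'.2.2.2 (h4.symm'.trans' hp'.2.2.1)
      have hsub : ∀ y, Conn (F.erase s(u', w')) w' y → Conn (F'.erase s(u', w')) w' y := by
        intro y hy
        refine hy.induct (P := fun a => Conn (F'.erase s(u', w')) w' a) Conn.rfl' ?_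
        intro a b _ h4 h5
        have h6 : Conn F₀ w a := he'.2.2.trans' (h4.mono ((erase_sub _).trans hF'₀))
        by_cases h7 : s(a, b) = s(u, w)
        · exfalso
          rw [Sym2.eq_iff] at h7
          rcases h7 with ⟨rfl, rfl⟩ | ⟨rfl, rfl⟩
          · exact hvw (hvu.trans' h6.symm')
          · exact hno h4
        · have h8 : s(a, b) ∈ F₀ := Finset.mem_erase.2 ⟨h7, Finset.mem_of_mem_erase h5⟩
          refine h4.trans' (conn_of_mem (Finset.mem_erase.2 ⟨Finset.ne_of_mem_erase h5, ?_⟩))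
          exact (memF' a b).2 ⟨h8, h6, h6.trans' (conn_of_mem h8)⟩
      have hlt : N (u', w') < N (u, w) := by
        rw [hN]
        refine Finset.card_lt_card ?_
        rw [Finset.ssubset_iff_of_subset]
        · refine ⟨w, Finset.mem_filter.2 ⟨Finset.mem_univ _, Conn.rfl'⟩, fun h4 => ?_⟩
          exact hno (hsub w (Finset.mem_filter.1 h4).2)
        · intro y hy
          have h4 := hsub y (Finset.mem_filter.1 hy).2
          refine Finset.mem_filter.2 ⟨Finset.mem_univ _, ?_⟩
          exact he'.2.2.trans' (h4.mono ((erase_sub _).trans hF'₀))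
      have hle := hmin (u', w') (Finset.mem_filter.2 ⟨Finset.mem_univ _, hnew⟩)
      omega
    -- the part from v to w
    set G := insert s(u, w) (F₀.filter (fun e => ∃ a ∈ e, Conn F₀ v a)) with hG
    have hvwG : Conn G v w := by
      have h1 : Conn (F₀.filter (fun e => ∃ a ∈ e, Conn F₀ v a)) v u := by
        refine hvu.induct (P := fun a => Conn (F₀.filter (fun e => ∃ a ∈ e, Conn F₀ v a)) v a)
          Conn.rfl' ?_
        intro a b h2 h3 h4
        exact h3.trans' (conn_of_mem (Finset.mem_filter.2 ⟨h4, a, Sym2.mem_mk_left _ _, h2⟩))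
      exact (h1.mono (Finset.subset_insert _ _)).trans' (conn_of_mem (Finset.mem_insert_self _ _))
    have hGF : G ⊆ F := by
      rw [hG]
      exact Finset.insert_subset hpiv.1 ((Finset.filter_subset _ _).trans hF₀F)
    have hdis : Disjoint G F' := by
      rw [hG, Finset.disjoint_insert_left]
      refine ⟨fun h1 => Finset.notMem_erase _ _ (hF'₀ h1), ?_⟩
      rw [Finset.disjoint_left]
      intro e h1 h2
      obtain ⟨-, a, ha, h3⟩ := Finset.mem_filter.1 h1
      exact hvw (h3.trans' ((Finset.mem_filter.1 h2).2 a ha).symm')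
    refine ⟨w, LG_core (hF'₀.trans hF₀F) hGF hdis hvwG (two_paths F' w x hwx' hnop) ?_⟩
    intro F₁ hF₁ hc
    have h1 : ¬ Thr F A v u := h.2 u w hpiv
    have h2 : ConnOff F A v u := by
      by_contra h3
      exact h1 ⟨hvu.mono hF₀F, h3⟩
    have h3 : ConnOff F A w x := hc.mono (hF₁.trans (hF'₀.trans hF₀F))
    have h4 : ConnOff F A u w :=
      ⟨h2.2.1, h3.1, conn_of_mem (mem_off.2 ⟨hpiv.1, h2.2.1, h3.1⟩)⟩
    exact hnot ((h2.trans' h4).trans' h3)

end Pool.Agent.helper66.LE
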