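import Pool.Agent.helper83.LE.LG

set_option autoImplicit false

/-!
# LE: diagrammatic bounds for the event `E'(v, x; A)`
-/

open Finset Classical

namespace Pool.Agent.helper66.LE

variable {V : Type}

/-- PB1 (from LG, BK) -/
theorem Pr_Epr_le [Fintype V] {q : ℝ} (h0 : 0 ≤ q) (h1 : q ≤ 1) (E : Finset (Sym2 V)) (A : Set V)
    (v x : V) : Pr q E (fun F => Epr F A v x) ≤
      ∑ a, if a ∈ A then EE (Matrix.of (t2 q E)) v a x else 0 := by
  have h2 : Pr q E (fun F => Epr F A v x) ≤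
      Pr q E (fun F => ∃ p ∈ (univ : Finset (V × V)).filter (fun p => p.1 ∈ A),
        DC [(v, p.2), (p.2, p.1), (p.1, x), (p.2, x)] F) := by
    refine Pr_mono h0 h1 fun F _ hc => ?_
    obtain ⟨t, a, ha, h⟩ := epr_sub hc
    exact ⟨(a, t), Finset.mem_filter.2 ⟨Finset.mem_univ _, ha⟩, h⟩
  refine h2.trans ((Pr_exists_le h0 h1 E _ _).trans ?_)
  rw [Finset.sum_filter, ← Finset.univ_product_univ, Finset.sum_product]
  refine Finset.sum_le_sum fun a _ => ?_
  by_cases ha : a ∈ A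
  · simp only [ha, if_true]
    refine Finset.sum_le_sum fun t _ => ?_
    refine (Pr_DC_le h0 h1 _).trans (le_of_eq ?_)
    simp only [List.map_cons, List.map_nil, List.prod_cons, List.prod_nil, Matrix.of_apply]
    ring
  · simp [ha]

theorem PB_branch {F : Finset (Sym2 V)} {v t a u y : V}
    (h : DC [(v, t), (t, a), (a, u), (t, u)] F) (hy : Conn F v y) :
    ∃ s, DC [(v, s), (s, t), (s, y), (t, a), (a, u), (t, u)] F ∨
      DC [(v, t), (t, s), (s, a), (s, y), (a, u), (t, u)] F ∨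
      DC [(v, t), (t, a), (a, s), (s, u), (s, y), (t, u)] F ∨
      DC [(v, t), (t, a), (a, u), (t, s), (s, u), (s, y)] F := by
  obtain ⟨l₁, p, l₂, s, h1, h2⟩ := branch _ v t y h hy
  refine ⟨s, ?_⟩
  rcases l₁ with _ | ⟨b₁, _ | ⟨b₂, _ | ⟨b₃, _ | ⟨b₄, l₁⟩⟩⟩⟩
  · simp only [List.nil_append, List.cons.injEq] at h1 h2
    obtain ⟨rfl, rfl⟩ := h1
    exact Or.inl h2
  · simp only [List.cons_append, List.nil_append, List.cons.injEq] at h1 h2
    obtain ⟨rfl, rfl, rfl⟩ := h1
    exact Or.inr (Or.inl h2)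
  · simp only [List.cons_append, List.nil_append, List.cons.injEq] at h1 h2
    obtain ⟨rfl, rfl, rfl, rfl⟩ := h1
    exact Or.inr (Or.inr (Or.inl h2))
  · simp only [List.cons_append, List.nil_append, List.cons.injEq] at h1 h2
    obtain ⟨rfl, rfl, rfl, rfl, rfl⟩ := h1
    exact Or.inr (Or.inr (Or.inr h2))
  · exfalso
    simp only [List.cons_append, List.cons.injEq] at h1
    have := congrArg List.length h1.2.2.2.2
    simp at this

/-- PB2 (from LG, LH, BK) -/
theorem Pr_Epr_conn_le [Fintype V] {q : ℝ} (h0 : 0 ≤ q) (h1 : q ≤ 1) (E : Finset (Sym2 V))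
    (A : Set V) (v u y : V) : Pr q E (fun F => Epr F A v u ∧ Conn F v y) ≤
      ∑ a, if a ∈ A then KK (Matrix.of (t2 q E)) v a u y else 0 := by
  have h2 : Pr q E (fun F => Epr F A v u ∧ Conn F v y) ≤
      Pr q E (fun F => ∃ p ∈ (univ : Finset (V × V × V)).filter (fun p => p.1 ∈ A),
        DC [(v, p.2.2), (p.2.2, p.2.1), (p.2.2, y), (p.2.1, p.1), (p.1, u), (p.2.1, u)] F ∨
        DC [(v, p.2.1), (p.2.1, p.2.2), (p.2.2, p.1), (p.2.2, y), (p.1, u), (p.2.1, u)] F ∨
        DC [(v, p.2.1), (p.2.1, p.1), (p.1, p.2.2), (p.2.2, u), (p.2.2, y), (p.2.1, u)] F ∨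
        DC [(v, p.2.1), (p.2.1, p.1), (p.1, u), (p.2.1, p.2.2), (p.2.2, u), (p.2.2, y)] F) := by
    refine Pr_mono h0 h1 fun F _ hc => ?_
    obtain ⟨t, a, ha, h⟩ := epr_sub hc.1
    obtain ⟨s, hs⟩ := PB_branch h hc.2
    exact ⟨(a, t, s), Finset.mem_filter.2 ⟨Finset.mem_univ _, ha⟩, hs⟩
  refine h2.trans ((Pr_exists_le h0 h1 E _ _).trans ?_)
  rw [Finset.sum_filter, ← Finset.univ_product_univ, Finset.sum_product]
  refine Finset.sum_le_sum fun a _ => ?_
  by_cases ha : a ∈ A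
  · simp only [ha, if_true]
    rw [← Finset.univ_product_univ, Finset.sum_product]
    unfold KK
    refine Finset.sum_le_sum fun t _ => Finset.sum_le_sum fun s _ => ?_
    refine (Pr_or_le h0 h1 E _ _).trans ?_
    rw [add_mul, add_mul, add_mul, add_assoc, add_assoc]
    refine add_le_add ?_ ((Pr_or_le h0 h1 E _ _).trans (add_le_add ?_
      ((Pr_or_le h0 h1 E _ _).trans (add_le_add ?_ ?_))))
    all_goals
      refine (Pr_DC_le h0 h1 _).trans (le_of_eq ?_)
      simp only [List.map_cons, List.map_nil, List.prod_cons, List.prod_nil, Matrix.of_apply]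
      ring
  · simp [ha]

end Pool.Agent.helper66.LE
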